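import Mathlib

/-! Paths, van Kampen certificates and the bound on their size. -/

namespace Pool.Agent.Work.MP_3d425c_gt.Nv
open FreeGroup

section Paths
variable {V A : Type*}

def st (src tgt : A → V) (a : A × Bool) : V := if a.2 then src a.1 else tgt a.1
def en (src tgt : A → V) (a : A × Bool) : V := if a.2 then tgt a.1 else src a.1

/-- The word is an edge path between the two nodes. -/
def IsPath (src tgt : A → V) : V → List (A × Bool) → V → Prop
  | x, [], y => x = y
  | x, a :: l, y => st src tgt a = x ∧ IsPath src tgt (en src tgt a) l y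

variable {src tgt : A → V}

theorem isPath_append {x y : V} {l l' : List (A × Bool)} :
    IsPath src tgt x (l ++ l') y ↔ ∃ z, IsPath src tgt x l z ∧ IsPath src tgt z l' y := by
  induction l generalizing x with
  | nil => simp [IsPath]
  | cons a l ih => simp only [List.cons_append, IsPath, ih]; tauto

theorem IsPath.append {x y z : V} {l l' : List (A × Bool)} (h : IsPath src tgt x l y)
    (h' : IsPath src tgt y l' z) : IsPath src tgt x (l ++ l') z := isPath_append.2 ⟨y, h, h'⟩

theorem invRev_cons' (a : A × Bool) (l : List (A × Bool)) :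
    invRev (a :: l) = invRev l ++ [(a.1, !a.2)] := by simp [invRev]

theorem IsPath.inv {x y : V} {l : List (A × Bool)} (h : IsPath src tgt x l y) :
    IsPath src tgt y (invRev l) x := by
  induction l generalizing x with
  | nil => exact Eq.symm h
  | cons a l ih =>
    rw [invRev_cons']
    refine (ih h.2).append ⟨?_, ?_⟩
    · rcases a with ⟨a, _ | _⟩ <;> rfl
    · rw [← h.1]; rcases a with ⟨a, _ | _⟩ <;> rfl

theorem IsPath.uniq {x y y' : V} {l : List (A × Bool)} (h : IsPath src tgt x l y)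
    (h' : IsPath src tgt x l y') : y = y' := by
  induction l generalizing x with
  | nil => exact Eq.trans (Eq.symm h) h'
  | cons a l ih => exact ih h.2 h'.2

theorem mem_invRev {l : List (A × Bool)} {a : A × Bool} (h : a ∈ invRev l) : (a.1, !a.2) ∈ l := by
  simp only [invRev, List.mem_reverse, List.mem_map] at h
  obtain ⟨b, hb, rfl⟩ := h
  simpa using hb

theorem mk_cons (a : A × Bool) (l : List (A × Bool)) : mk (a :: l) = mk [a] * mk l := by
  rw [mul_mk]; rfl

theorem finite_lists {α : Type*} {E : Set α} (hE : E.Finite) (n : ℕ) :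
    {l : List α | l.length ≤ n ∧ ∀ a ∈ l, a ∈ E}.Finite := by
  induction n with
  | zero => exact (Set.finite_singleton []).subset fun l h => List.length_eq_zero_iff.1 (by simpa using h.1)
  | succ n ih =>
    refine ((Set.finite_singleton []).union (hE.image2 List.cons ih)).subset fun l h => ?_
    cases l with
    | nil => exact Or.inl rfl
    | cons a l =>
      exact Or.inr ⟨a, h.2 a (by simp), l, ⟨by simpa using h.1, fun b hb => h.2 b (by simp [hb])⟩, rfl⟩

theorem finite_paths (hf : ∀ x, {a | st src tgt a = x}.Finite) (n : ℕ) (x : V) :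
    {l | l.length ≤ n ∧ ∃ y, IsPath src tgt x l y}.Finite := by
  induction n generalizing x with
  | zero => exact (Set.finite_singleton []).subset fun l h => List.length_eq_zero_iff.1 (by simpa using h.1)
  | succ n ih =>
    refine ((Set.finite_singleton []).union ((hf x).biUnion fun a _ =>
      (ih (en src tgt a)).image (List.cons a))).subset fun l h => ?_
    cases l with
    | nil => exact Or.inl rfl
    | cons a l =>
      obtain ⟨h1, y, h2, h3⟩ := h
      exact Or.inr (Set.mem_biUnion (x := a) h2 ⟨l, ⟨by simpa using h1, y, h3⟩, rfl⟩)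

end Paths

section Cert
variable {V A C : Type*}

/-- One factor of a certificate. -/
def val (bd : C → List (A × Bool)) (e : List (A × Bool) × C × Bool) : FreeGroup A :=
  mk e.1 * (if e.2.2 then mk (bd e.2.1) else (mk (bd e.2.1))⁻¹) * (mk e.1)⁻¹

def cval (bd : C → List (A × Bool)) (L : List (List (A × Bool) × C × Bool)) : FreeGroup A :=
  (L.map (val bd)).prod

variable {bd : C → List (A × Bool)}

theorem cval_nil : cval bd [] = 1 := rfl
theorem cval_cons (e) (L) : cval bd (e :: L) = val bd e * cval bd L := by simp [cval]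
theorem cval_append (L L') : cval bd (L ++ L') = cval bd L * cval bd L' := by simp [cval]

theorem val_conj (d : List (A × Bool)) (e) :
    val bd (d ++ e.1, e.2) = mk d * val bd e * (mk d)⁻¹ := by
  simp only [val, ← mul_mk]; group

theorem cval_conj (d : List (A × Bool)) (L) :
    cval bd (L.map fun e => (d ++ e.1, e.2)) = mk d * cval bd L * (mk d)⁻¹ := by
  induction L with
  | nil => rw [List.map_nil, cval_nil]; group
  | cons e L ih => rw [List.map_cons, cval_cons, cval_cons, ih, val_conj]; group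

theorem val_not (e) : val bd (e.1, e.2.1, !e.2.2) = (val bd e)⁻¹ := by
  rcases e with ⟨d, c, _ | _⟩ <;> simp only [val] <;> simp only [Bool.not_false, Bool.not_true, if_true, Bool.false_eq_true, if_false] <;> group

theorem cval_inv (L) :
    cval bd (L.map fun e => (e.1, e.2.1, !e.2.2)).reverse = (cval bd L)⁻¹ := by
  induction L with
  | nil => simp [cval]
  | cons e L ih =>
    rw [List.map_cons, List.reverse_cons, cval_append, ih, cval_cons, cval_cons, cval_nil, val_not]
    group

/-- The normal closure of the boundaries of a set of cells. -/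
def ncl (bd : C → List (A × Bool)) (K : Set C) : Subgroup (FreeGroup A) :=
  Subgroup.normalClosure ((fun c => mk (bd c)) '' K)

theorem cval_mem {K : Set C} {L : List (List (A × Bool) × C × Bool)} (h : ∀ e ∈ L, e.2.1 ∈ K) :
    cval bd L ∈ ncl bd K := by
  refine Subgroup.list_prod_mem _ fun x hx => ?_
  obtain ⟨e, he, rfl⟩ := List.mem_map.1 hx
  have h1 : mk (bd e.2.1) ∈ ncl bd K := Subgroup.subset_normalClosure ⟨_, h e he, rfl⟩
  refine Subgroup.normalClosure_normal.conj_mem _ ?_ _
  split_ifs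
  · exact h1
  · exact inv_mem h1

open Classical in
/-- Substitution of a word for a letter. -/
noncomputable def sb (e : A) (u : List (A × Bool)) (l : List (A × Bool)) : List (A × Bool) :=
  l.flatMap fun a => if a.1 = e then (if a.2 then u else invRev u) else [a]

open Classical in
noncomputable def sub (e : A) (u : List (A × Bool)) : FreeGroup A →* FreeGroup A :=
  lift fun a => if a = e then mk u else of a

theorem sb_cons (e : A) (u a l) : sb e u (a :: l) = sb e u [a] ++ sb e u l := by simp [sb]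

theorem sb_one (e : A) (u) (a : A × Bool) : (a.1 ≠ e ∧ sb e u [a] = [a]) ∨
    (a = (e, true) ∧ sb e u [a] = u) ∨ (a = (e, false) ∧ sb e u [a] = invRev u) := by
  rcases a with ⟨a, b⟩
  by_cases h : a = e
  · subst h; cases b <;> simp [sb]
  · simp [sb, h]

theorem mk_true (a : A) : mk [(a, true)] = of a := rfl
theorem mk_false (a : A) : mk [(a, false)] = (of a)⁻¹ := by rw [← mk_true, inv_mk]; rfl

theorem mk_sb (e : A) (u l) : mk (sb e u l) = sub e u (mk l) := by
  induction l with
  | nil => simp [sb, ← one_eq_mk]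
  | cons a l ih =>
    rw [sb_cons, ← mul_mk, ih, mk_cons a l, _root_.map_mul]
    congr 1
    rcases sb_one e u a with ⟨h1, h2⟩ | ⟨rfl, h2⟩ | ⟨rfl, h2⟩ <;> rw [h2]
    · rcases a with ⟨a, _ | _⟩
      · rw [mk_false, _root_.map_inv]; simp only [sub, lift_apply_of]; rw [if_neg h1]
      · rw [mk_true]; simp only [sub, lift_apply_of]; rw [if_neg h1]
    · rw [mk_true]; simp [sub]
    · rw [mk_false, _root_.map_inv, ← inv_mk]; simp [sub]

theorem sb_self {e : A} {u l : List (A × Bool)} (h : e ∉ l.map Prod.fst) : sb e u l = l := by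
  induction l with
  | nil => rfl
  | cons a l ih =>
    simp only [List.map_cons, List.mem_cons, not_or] at h
    rw [sb_cons, ih h.2]
    rcases sb_one e u a with ⟨_, h2⟩ | ⟨rfl, _⟩ | ⟨rfl, _⟩
    · rw [h2]; rfl
    · exact absurd rfl h.1
    · exact absurd rfl h.1

/-- A two-complex with a class `S` of cells and a class `P` of arcs. -/
structure Surf (src tgt : A → V) (bd : C → List (A × Bool)) (base : C → V) (S : Set C)
    (P : A → Prop) (M B : ℕ) : Prop where
  path : ∀ c ∈ S, IsPath src tgt (base c) (bd c) (base c)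
  nodup : ∀ c ∈ S, ((bd c).map Prod.fst).Nodup
  len : ∀ c ∈ S, (bd c).length ≤ M
  arcs : ∀ c ∈ S, ∀ a ∈ bd c, P a.1
  iso : ∀ (K : Finset C) (Z : Finset A), ↑K ⊆ S →
    (∀ c ∈ K, ∀ a ∈ (bd c).map Prod.fst, a ∉ Z → ∃ c' ∈ K, c' ≠ c ∧ a ∈ (bd c').map Prod.fst) →
    K.card ≤ B * Z.card

variable {src tgt : A → V} {base : C → V} {S : Set C} {P : A → Prop} {M B : ℕ}

theorem surf_rest (h : Surf src tgt bd base S P M B) {c : C} (hc : c ∈ S) {e : A}
    (he : e ∈ (bd c).map Prod.fst) : ∃ u d ε, IsPath src tgt (src e) u (tgt e) ∧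
      IsPath src tgt (src e) d (base c) ∧ (∀ a ∈ u, P a.1) ∧ (∀ a ∈ d, P a.1) ∧ u.length ≤ M ∧
      d.length ≤ M ∧ of e = val bd (d, c, ε) * mk u ∧ sub e u (mk (bd c)) = 1 := by
  obtain ⟨⟨e', σ⟩, hm, rfl⟩ := List.mem_map.1 he
  obtain ⟨l1, l2, hl⟩ := List.append_of_mem hm
  have hn := h.nodup c hc
  have hp := h.path c hc
  have hlen := h.len c hc
  have ha := h.arcs c hc
  rw [hl] at hn hp hlen ha
  obtain ⟨z, p1, p2, p3⟩ := isPath_append.1 hp
  have n1 : e' ∉ l1.map Prod.fst := fun x => by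
    rw [List.map_append, List.nodup_append] at hn
    exact hn.2.2 _ x _ (by simp) rfl
  have n2 : e' ∉ l2.map Prod.fst := by
    rw [List.map_append, List.nodup_append, List.map_cons, List.nodup_cons] at hn
    exact hn.2.1.1
  have a1 : ∀ a ∈ l1, P a.1 := fun a x => ha a (by simp [x])
  have a2 : ∀ a ∈ l2, P a.1 := fun a x => ha a (by simp [x])
  simp only [List.length_append, List.length_cons] at hlen
  have e0 : mk (bd c) = mk l1 * mk [(e', σ)] * mk l2 := by rw [hl, mul_mk, mul_mk]; simp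
  have s1 : ∀ u, sub e' u (mk l1) = mk l1 := fun u => by rw [← mk_sb, sb_self n1]
  have s2 : ∀ u, sub e' u (mk l2) = mk l2 := fun u => by rw [← mk_sb, sb_self n2]
  have s3 : ∀ u, sub e' u (of e') = mk u := fun u => by simp [sub]
  subst p2
  cases σ
  · refine ⟨l2 ++ l1, l2, false, IsPath.append p3 p1, p3, ?_, a2, by simp; omega, by omega, ?_, ?_⟩
    · intro a x
      rcases List.mem_append.1 x with x | x
      exacts [a2 a x, a1 a x]
    · simp only [val, e0, mk_false, ← mul_mk, Bool.false_eq_true, if_false]; group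
    · rw [e0, _root_.map_mul, _root_.map_mul, s1, s2, mk_false, _root_.map_inv, s3, ← mul_mk]; group
  · refine ⟨invRev l1 ++ invRev l2, invRev l1, true, IsPath.append p1.inv (IsPath.inv p3), p1.inv,
      ?_, fun a x => a1 (a.1, !a.2) (mem_invRev x), by simp; omega, by simp; omega, ?_, ?_⟩
    · intro a x
      rcases List.mem_append.1 x with x | x
      exacts [a1 (a.1, !a.2) (mem_invRev x), a2 (a.1, !a.2) (mem_invRev x)]
    · simp only [val, e0, mk_true, ← mul_mk, ← inv_mk, if_true]; group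
    · rw [e0, _root_.map_mul, _root_.map_mul, s1, s2, mk_true, s3, ← mul_mk, ← inv_mk, ← inv_mk]; group

theorem sub_mem {K : Set C} {c : C} {e : A} {u : List (A × Bool)} (h1 : sub e u (mk (bd c)) = 1)
    (h2 : ∀ c' ∈ K, c' ≠ c → e ∉ (bd c').map Prod.fst) {x : FreeGroup A} (hx : x ∈ ncl bd K) :
    sub e u x ∈ ncl bd (K \ {c}) := by
  have : (ncl bd (K \ {c})).Normal := Subgroup.normalClosure_normal
  have hle : ncl bd K ≤ (ncl bd (K \ {c})).comap (sub e u) := by
    refine Subgroup.normalClosure_le_normal ?_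
    rintro _ ⟨c', hc', rfl⟩
    by_cases hc : c' = c
    · subst hc
      show sub e u _ ∈ ncl bd _
      rw [h1]; exact one_mem _
    · show sub e u _ ∈ ncl bd _
      rw [← mk_sb, sb_self (h2 c' hc' hc)]
      exact Subgroup.subset_normalClosure ⟨c', ⟨hc', hc⟩, rfl⟩
  exact hle hx

theorem surf_small (h : Surf src tgt bd base S P M B) (x : List (A × Bool)) (K : Finset C)
    (hK : ↑K ⊆ S) (hx : mk x ∈ ncl bd ↑K) :
    ∃ K' : Finset C, ↑K' ⊆ S ∧ K'.card ≤ B * x.length ∧ mk x ∈ ncl bd ↑K' := by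
  classical
  induction K using Finset.strongInduction with
  | H K ih =>
    by_cases hf : ∀ c ∈ K, ∀ a ∈ (bd c).map Prod.fst, a ∉ (x.map Prod.fst).toFinset →
        ∃ c' ∈ K, c' ≠ c ∧ a ∈ (bd c').map Prod.fst
    · refine ⟨K, hK, (h.iso K _ hK hf).trans (Nat.mul_le_mul_left _ ?_), hx⟩
      simpa using List.toFinset_card_le (x.map Prod.fst)
    · push Not at hf
      obtain ⟨c, hc, e, he, hx', hn⟩ := hf
      obtain ⟨u, -, -, -, -, -, -, -, -, -, h1⟩ := surf_rest h (hK hc) he
      have := sub_mem h1 hn hx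
      rw [← mk_sb, sb_self (by simpa using hx')] at this
      exact ih (K.erase c) (Finset.erase_ssubset hc) ((Finset.coe_subset.2 (K.erase_subset c)).trans hK)
        (by rwa [Finset.coe_erase])

theorem collapse {c : C} {e : A} {u d : List (A × Bool)} {ε : Bool}
    (pu : IsPath src tgt (src e) u (tgt e)) (pd : IsPath src tgt (src e) d (base c))
    (au : ∀ a ∈ u, P a.1) (ad : ∀ a ∈ d, P a.1) (lu : u.length ≤ M) (ld : d.length ≤ M)
    (he : of e = val bd (d, c, ε) * mk u) (x : List (A × Bool)) (p q : V)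
    (hp : IsPath src tgt p x q) (hx : ∀ a ∈ x, P a.1) :
    IsPath src tgt p (sb e u x) q ∧ (∀ a ∈ sb e u x, P a.1) ∧
      (sb e u x).length ≤ (M + 1) * x.length ∧ ∃ L : List (List (A × Bool) × C × Bool),
      L.length ≤ x.length ∧ (∀ f ∈ L, f.2.1 = c ∧ IsPath src tgt p f.1 (base c) ∧
        (∀ a ∈ f.1, P a.1) ∧ f.1.length ≤ x.length + 2 * M) ∧ mk x = cval bd L * mk (sb e u x) := by
  induction x generalizing p with
  | nil => exact ⟨hp, by simp [sb], by simp [sb], [], le_rfl, by simp, by simp [sb, cval]⟩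
  | cons a x ih =>
    obtain ⟨i1, i2, i3, L, i4, i5, i6⟩ := ih _ hp.2 fun b hb => hx b (by simp [hb])
    have hPa : P a.1 := hx a (by simp)
    have key : IsPath src tgt p (sb e u [a]) (en src tgt a) ∧ (∀ b ∈ sb e u [a], P b.1) ∧
        (sb e u [a]).length ≤ M + 1 ∧ ∃ L0 : List (List (A × Bool) × C × Bool),
        L0.length ≤ 1 ∧ (∀ f ∈ L0, f.2.1 = c ∧ IsPath src tgt p f.1 (base c) ∧
        (∀ a ∈ f.1, P a.1) ∧ f.1.length ≤ 2 * M) ∧ mk [a] = cval bd L0 * mk (sb e u [a]) := by
      have h0 := hp.1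
      rcases sb_one e u a with ⟨_, h2⟩ | ⟨rfl, h2⟩ | ⟨rfl, h2⟩ <;> rw [h2]
      · exact ⟨⟨h0, rfl⟩, by simpa using hPa, by simp, [], by simp, by simp, by simp [cval]⟩
      · subst h0
        refine ⟨pu, au, by omega, [(d, c, ε)], le_rfl, ?_, by simpa [cval, mk_true] using he⟩
        intro f hf
        rw [List.mem_singleton.1 hf]
        exact ⟨rfl, pd, ad, by simp; omega⟩
      · subst h0
        refine ⟨pu.inv, fun b hb => au (b.1, !b.2) (mem_invRev hb), by simp; omega,
          [(invRev u ++ d, c, !ε)], le_rfl, ?_, ?_⟩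
        · intro f hf
          rw [List.mem_singleton.1 hf]
          refine ⟨rfl, pu.inv.append pd, fun b hb => ?_, by simp; omega⟩
          rcases List.mem_append.1 hb with hb | hb
          exacts [au (b.1, !b.2) (mem_invRev hb), ad b hb]
        · rw [cval_cons, cval_nil, val_conj (invRev u) (d, c, !ε), val_not (d, c, ε), mk_false, he,
            ← inv_mk]
          group
    obtain ⟨k1, k2, k3, L0, k4, k5, k6⟩ := key
    rw [sb_cons]
    refine ⟨k1.append i1, fun b hb => ?_, ?_, L.map (fun f => ([a] ++ f.1, f.2)) ++ L0, ?_, ?_, ?_⟩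
    · rcases List.mem_append.1 hb with hb | hb
      exacts [k2 b hb, i2 b hb]
    · simp only [List.length_append, List.length_cons]; nlinarith
    · simp only [List.length_append, List.length_cons, List.length_map]; omega
    · intro f hf
      rcases List.mem_append.1 hf with hf | hf
      · obtain ⟨f, hf', rfl⟩ := List.mem_map.1 hf
        obtain ⟨j1, j2, j3, j4⟩ := i5 f hf'
        refine ⟨j1, ⟨hp.1, j2⟩, fun b hb => ?_, by simp; omega⟩
        rcases List.mem_cons.1 hb with rfl | hb
        exacts [hPa, j3 b hb]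
      · obtain ⟨j1, j2, j3, j4⟩ := k5 f hf
        exact ⟨j1, j2, j3, by omega⟩
    · rw [cval_append, cval_conj, mk_cons a x, i6, ← mul_mk]
      calc mk [a] * (cval bd L * mk (sb e u x))
          = mk [a] * cval bd L * (mk [a])⁻¹ * mk [a] * mk (sb e u x) := by group
        _ = _ := by nth_rewrite 3 [k6]; group

theorem surf_aux (h : Surf src tgt bd base S P M B) (k n : ℕ) : ∃ N : ℕ,
    ∀ (K : Finset C) (x : List (A × Bool)) (p q : V), ↑K ⊆ S → K.card ≤ k → x.length ≤ n →
      IsPath src tgt p x q → (∀ a ∈ x, P a.1) → mk x ∈ ncl bd ↑K →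
      ∃ L : List (List (A × Bool) × C × Bool), L.length ≤ N ∧ (∀ f ∈ L, f.2.1 ∈ S ∧
        IsPath src tgt p f.1 (base f.2.1) ∧ (∀ a ∈ f.1, P a.1) ∧ f.1.length ≤ N) ∧
        mk x = cval bd L := by
  classical
  have h0 : ∀ x : List (A × Bool), mk x ∈ ncl bd ↑(∅ : Finset C) → mk x = cval bd [] := by
    intro x hx
    simpa [ncl, cval] using hx
  induction k generalizing n with
  | zero =>
    refine ⟨0, fun K x p q _ hk _ _ _ hx => ⟨[], le_rfl, by simp, h0 x ?_⟩⟩
    rwa [Finset.card_eq_zero.1 (Nat.le_zero.1 hk)] at hx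
  | succ k ih =>
    obtain ⟨N, hN⟩ := ih ((M + 1) * n)
    refine ⟨N + n + 2 * M, fun K x p q hK hk hn hp hP hx => ?_⟩
    rcases K.eq_empty_or_nonempty with rfl | hne
    · exact ⟨[], by simp, by simp, h0 x hx⟩
    have hf : ¬ ∀ c ∈ K, ∀ a ∈ (bd c).map Prod.fst, a ∉ (∅ : Finset A) →
        ∃ c' ∈ K, c' ≠ c ∧ a ∈ (bd c').map Prod.fst := fun hf => by
      have := h.iso K ∅ hK hf
      have := hne.card_pos
      simp only [Finset.card_empty, mul_zero] at *
      omega
    push Not at hf
    obtain ⟨c, hc, e, he, -, hno⟩ := hf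
    obtain ⟨u, d, ε, pu, pd, au, ad, lu, ld, hv, h1⟩ := surf_rest h (hK hc) he
    obtain ⟨i1, i2, i3, L, i4, i5, i6⟩ := collapse pu pd au ad lu ld hv x p q hp hP
    have hm := sub_mem h1 hno hx
    rw [← mk_sb, ← Finset.coe_erase] at hm
    obtain ⟨L', j1, j2, j3⟩ := hN (K.erase c) _ p q
      ((Finset.coe_subset.2 (K.erase_subset c)).trans hK)
      (by rw [Finset.card_erase_of_mem hc]; omega) (i3.trans (Nat.mul_le_mul_left _ hn)) i1 i2 hm
    refine ⟨L ++ L', by simp; omega, fun f hf => ?_, by rw [cval_append, ← j3, ← i6]⟩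
    rcases List.mem_append.1 hf with hf | hf
    · obtain ⟨a1, a2, a3, a4⟩ := i5 f hf
      exact ⟨a1 ▸ hK hc, a1 ▸ a2, a3, by omega⟩
    · obtain ⟨a1, a2, a3, a4⟩ := j2 f hf
      exact ⟨a1, a2, a3, by omega⟩

/-- Certificates can be taken of bounded size. -/
theorem surf_bound (h : Surf src tgt bd base S P M B) (n : ℕ) : ∃ N : ℕ,
    ∀ (x : List (A × Bool)) (p q : V) (L₀ : List (List (A × Bool) × C × Bool)), x.length ≤ n →
      IsPath src tgt p x q → (∀ a ∈ x, P a.1) → (∀ f ∈ L₀, f.2.1 ∈ S) → mk x = cval bd L₀ →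
      ∃ L : List (List (A × Bool) × C × Bool), L.length ≤ N ∧ (∀ f ∈ L, f.2.1 ∈ S ∧
        IsPath src tgt p f.1 (base f.2.1) ∧ (∀ a ∈ f.1, P a.1) ∧ f.1.length ≤ N) ∧
        mk x = cval bd L := by
  classical
  obtain ⟨N, hN⟩ := surf_aux h (B * n) n
  refine ⟨N, fun x p q L₀ hn hp hP hS hx => ?_⟩
  obtain ⟨K, k1, k2, k3⟩ := surf_small h x (L₀.map fun f => f.2.1).toFinset
    (fun c hc => by
      obtain ⟨f, hf, rfl⟩ := List.mem_map.1 (List.mem_toFinset.1 hc)
      exact hS f hf)
    (hx ▸ cval_mem fun f hf => List.mem_toFinset.2 (List.mem_map_of_mem hf))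
  exact hN K x p q k1 (k2.trans (Nat.mul_le_mul_left _ hn)) hn hp hP k3

/-- The isoperimetric inequality from weights. -/
theorem iso_of_weights (S : Set C) (role : C → A → Bool) (y : A → ℝ) (Y : ℕ)
    (nd : ∀ c ∈ S, ((bd c).map Prod.fst).Nodup) (hy : ∀ a, |y a| ≤ Y)
    (one : ∀ c ∈ S, ∀ c' ∈ S, ∀ a ∈ (bd c).map Prod.fst, a ∈ (bd c').map Prod.fst →
      role c a = role c' a → c = c')
    (sur : ∀ c ∈ S, 1 ≤ (((bd c).map Prod.fst).map fun a => if role c a then y a else -y a).sum)
    (K : Finset C) (Z : Finset A) (hK : ↑K ⊆ S)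
    (hZ : ∀ c ∈ K, ∀ a ∈ (bd c).map Prod.fst, a ∉ Z → ∃ c' ∈ K, c' ≠ c ∧ a ∈ (bd c').map Prod.fst) :
    K.card ≤ (2 * Y) * Z.card := by
  classical
  set I : Finset (Σ _ : C, A) := K.sigma fun c => ((bd c).map Prod.fst).toFinset with hI
  set w : (Σ _ : C, A) → ℝ := fun i => if role i.1 i.2 then y i.2 else -y i.2 with hw
  have mI : ∀ i, i ∈ I ↔ i.1 ∈ K ∧ i.2 ∈ (bd i.1).map Prod.fst := fun i => by
    rw [hI, Finset.mem_sigma, List.mem_toFinset]
  have h1 : (K.card : ℝ) ≤ ∑ i ∈ I, w i := by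
    rw [hI, Finset.sum_sigma, Finset.card_eq_sum_ones, Nat.cast_sum]
    refine Finset.sum_le_sum fun c hc => ?_
    rw [List.sum_toFinset _ (nd c (hK hc))]
    simpa using sur c (hK hc)
  have h2 : ∑ i ∈ I.filter (fun i => i.2 ∉ Z), w i = 0 := by
    have ex : ∀ i ∈ I.filter (fun i => i.2 ∉ Z), ∃ c' ∈ K, c' ≠ i.1 ∧ i.2 ∈ (bd c').map Prod.fst :=
      fun i hi => by
        obtain ⟨a, b⟩ := Finset.mem_filter.1 hi
        exact hZ _ ((mI i).1 a).1 _ ((mI i).1 a).2 b
    choose g g1 g2 g3 using ex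
    have gr : ∀ i hi, role (g i hi) i.2 = !role i.1 i.2 := fun i hi => by
      have a := (mI i).1 (Finset.mem_filter.1 hi).1
      have : role (g i hi) i.2 ≠ role i.1 i.2 := fun e =>
        g2 i hi (one _ (hK (g1 i hi)) _ (hK a.1) _ (g3 i hi) a.2 e)
      exact Bool.eq_not.2 this
    have gm : ∀ i hi, (⟨g i hi, i.2⟩ : Σ _ : C, A) ∈ I.filter (fun i => i.2 ∉ Z) := fun i hi =>
      Finset.mem_filter.2 ⟨(mI _).2 ⟨g1 i hi, g3 i hi⟩, (Finset.mem_filter.1 hi).2⟩
    refine Finset.sum_involution (fun i hi => ⟨g i hi, i.2⟩) (fun i hi => ?_)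
      (fun i hi _ e => g2 i hi (congrArg Sigma.fst e)) gm (fun i hi => ?_)
    · simp only [hw, gr i hi]
      cases role i.1 i.2 <;> simp
    · have a := (mI i).1 (Finset.mem_filter.1 hi).1
      have e : g _ (gm i hi) = i.1 := by
        refine one _ (hK (g1 _ _)) _ (hK a.1) i.2 (g3 _ (gm i hi)) a.2 ?_
        have := gr _ (gm i hi)
        simp only [gr i hi, Bool.not_not] at this
        exact this
      rcases i with ⟨c, a⟩
      simp only at e ⊢
      rw [e]
  have h3 : (I.filter (fun i => i.2 ∈ Z)).card ≤ 2 * Z.card := by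
    have := Finset.card_le_card_of_injOn (s := I.filter (fun i => i.2 ∈ Z))
      (t := (Finset.univ : Finset Bool) ×ˢ Z) (fun i => (role i.1 i.2, i.2))
      (fun i hi => by simpa using (Finset.mem_filter.1 hi).2) (fun i hi j hj e => by
        have a := (mI i).1 (Finset.mem_filter.1 hi).1
        have b := (mI j).1 (Finset.mem_filter.1 hj).1
        rcases i with ⟨c, x⟩
        rcases j with ⟨c', x'⟩
        simp only [Prod.mk.injEq] at e a b
        obtain ⟨e1, rfl⟩ := e
        rw [one _ (hK a.1) _ (hK b.1) _ a.2 b.2 e1])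
    simpa using this
  have h4 : ∑ i ∈ I.filter (fun i => i.2 ∈ Z), w i ≤ (I.filter (fun i => i.2 ∈ Z)).card • (Y : ℝ) :=
    Finset.sum_le_card_nsmul _ _ _ fun i _ => by
      have := abs_le.1 (hy i.2)
      simp only [hw]
      split_ifs <;> linarith [this.1, this.2]
  rw [← Finset.sum_filter_add_sum_filter_not I (fun i => i.2 ∈ Z), h2, add_zero] at h1
  have h5 : ((I.filter (fun i => i.2 ∈ Z)).card : ℝ) ≤ 2 * Z.card := by exact_mod_cast h3
  rw [nsmul_eq_mul] at h4
  have : (K.card : ℝ) ≤ (2 * Y) * Z.card := by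
    have : (0 : ℝ) ≤ Y := Nat.cast_nonneg _
    nlinarith
  exact_mod_cast this

end Cert

end Pool.Agent.Work.MP_3d425c_gt.Nv
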