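import Mathlib

-- merged part: Pool.Agent.Work.MP_3d425c_gt.Nv.Hull
section
/-!
Surface complexes: every arc has two sides, every side lies on one cell.
Extension of group valued labellings over infinite components, and the size of finite components.
-/

namespace Pool.Agent.Work.MP_3d425c_gt.Nv

open Set Relation

/-- value of a letter -/
def lt1 {A Γ : Type*} [Group Γ] (φ : A → Γ) (x : A × Bool) : Γ :=
  if x.2 = true then φ x.1 else (φ x.1)⁻¹

/-- value of a word -/
def ev {A Γ : Type*} [Group Γ] (φ : A → Γ) (w : List (A × Bool)) : Γ := (w.map (lt1 φ)).prod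

section ev
variable {A Γ : Type*} [Group Γ]

@[simp] theorem ev_nil (φ : A → Γ) : ev φ [] = 1 := by simp [ev]

@[simp] theorem ev_cons (φ : A → Γ) (x : A × Bool) (w : List (A × Bool)) :
    ev φ (x :: w) = lt1 φ x * ev φ w := by simp [ev]

@[simp] theorem ev_append (φ : A → Γ) (u v : List (A × Bool)) :
    ev φ (u ++ v) = ev φ u * ev φ v := by simp [ev]

theorem ev_congr {φ ψ : A → Γ} {w : List (A × Bool)} (h : ∀ x ∈ w, φ x.1 = ψ x.1) :
    ev φ w = ev ψ w := by
  induction w with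
  | nil => simp
  | cons x w ih =>
    rw [ev_cons, ev_cons, ih (fun y hy => h y (List.mem_cons_of_mem _ hy))]
    simp only [lt1, h x List.mem_cons_self]

theorem lt1_not (φ : A → Γ) (a : A) (b : Bool) : lt1 φ (a, !b) = (lt1 φ (a, b))⁻¹ := by
  cases b <;> simp [lt1]

end ev

/-- Cells `C`, arcs `A`; an arc has two sides, `L c` lists the sides at the cell `c`, and
`sg` is the direction in which the boundary word runs through the arc. -/
structure Sq (A C : Type*) where
  cell : A × Bool → C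
  sg : A × Bool → Bool
  L : C → List (A × Bool)
  nodup : ∀ c, (L c).Nodup
  mem : ∀ c z, z ∈ L c ↔ cell z = c

namespace Sq
variable {A C : Type*} (X : Sq A C)

/-- the boundary word of a cell -/
def bd (c : C) : List (A × Bool) := (X.L c).map fun z => (z.1, X.sg z)

/-- dual step across an arc outside `Z` -/
def Adj (Z : Set A) (c d : C) : Prop := ∃ a b, a ∉ Z ∧ X.cell (a, b) = c ∧ X.cell (a, !b) = d

/-- the union of the finite components of the dual graph cut along `Z` -/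
def K (Z : Set A) : Set C := {c | {d | ReflTransGen (X.Adj Z) c d}.Finite}

theorem Adj.symm {Z : Set A} {c d : C} (h : X.Adj Z c d) : X.Adj Z d c := by
  obtain ⟨a, b, ha, h1, h2⟩ := h
  exact ⟨a, !b, ha, h2, by simpa using h1⟩

theorem K_of_reach {Z : Set A} {c d : C} (hc : c ∈ X.K Z) (h : ReflTransGen (X.Adj Z) c d) :
    d ∈ X.K Z :=
  Set.Finite.subset hc fun _ he => h.trans he

theorem K_of_adj {Z : Set A} {c d : C} (hc : c ∈ X.K Z) (h : X.Adj Z c d) : d ∈ X.K Z :=
  X.K_of_reach hc (ReflTransGen.single h)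

theorem mem_bd {c : C} {x : A × Bool} (h : x ∈ X.bd c) : ∃ b, X.cell (x.1, b) = c := by
  obtain ⟨z, hz, rfl⟩ := List.mem_map.1 h
  exact ⟨z.2, (X.mem c z).1 hz⟩

theorem exit {Z : Set A} (F : Finset C) {c0 : C} (h0 : c0 ∈ F) (hK : c0 ∉ X.K Z) :
    ∃ c ∈ F, ∃ d, d ∉ F ∧ X.Adj Z c d := by
  by_contra hn
  push Not at hn
  apply hK
  refine Set.Finite.subset F.finite_toSet fun d hd => ?_
  have hd' : ReflTransGen (X.Adj Z) c0 d := hd
  clear hd
  induction hd' with
  | refl => exact h0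
  | tail _ hs ih =>
    by_contra hF
    exact hn _ ih _ hF hs

theorem solve {Γ : Type*} [Group Γ] (φ : A → Γ) {a : A} {b : Bool} {c : C}
    (h1 : X.cell (a, b) = c) (h2 : X.cell (a, !b) ≠ c) :
    ∃ ψ : A → Γ, (∀ a', a' ≠ a → ψ a' = φ a') ∧ ev ψ (X.bd c) = 1 := by
  classical
  obtain ⟨l1, l2, hl⟩ := List.append_of_mem ((X.mem c (a, b)).2 h1)
  have hnd := X.nodup c
  rw [hl] at hnd
  have hne : ∀ z, z ∈ l1 ∨ z ∈ l2 → z.1 ≠ a := by
    rintro ⟨a', b'⟩ hz rfl
    have hm : (a', b') ∈ X.L c := by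
      rw [hl]; rcases hz with hz | hz
      · exact List.mem_append_left _ hz
      · exact List.mem_append_right _ (List.mem_cons_of_mem _ hz)
    by_cases hb : b' = b
    · subst hb
      rw [List.nodup_append] at hnd
      rcases hz with hz | hz
      · exact hnd.2.2 _ hz _ List.mem_cons_self rfl
      · exact (List.nodup_cons.1 hnd.2.1).1 hz
    · have : b' = !b := by cases b <;> cases b' <;> simp_all
      subst this
      exact h2 ((X.mem c _).1 hm)
  set g : Γ := (ev φ (l1.map fun z => (z.1, X.sg z)))⁻¹ * (ev φ (l2.map fun z => (z.1, X.sg z)))⁻¹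
    with hg
  refine ⟨Function.update φ a (if X.sg (a, b) = true then g else g⁻¹),
    fun a' h => Function.update_of_ne h _ _, ?_⟩
  have e : ∀ l : List (A × Bool), (∀ z ∈ l, z.1 ≠ a) →
      ev (Function.update φ a (if X.sg (a, b) = true then g else g⁻¹))
        (l.map fun z => (z.1, X.sg z)) = ev φ (l.map fun z => (z.1, X.sg z)) := by
    intro l h
    refine ev_congr fun x hx => ?_
    obtain ⟨z, hz, rfl⟩ := List.mem_map.1 hx
    exact Function.update_of_ne (h z hz) _ _
  rw [bd, hl, List.map_append, List.map_cons, ev_append, ev_cons,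
    e l1 fun z hz => hne z (Or.inl hz), e l2 fun z hz => hne z (Or.inr hz)]
  have : lt1 (Function.update φ a (if X.sg (a, b) = true then g else g⁻¹)) (a, X.sg (a, b)) = g := by
    by_cases hs : X.sg (a, b) = true <;> simp [lt1, hs]
  rw [this, hg]; group

/-- EXT -/
theorem ext_kill {Γ : Type*} [Group Γ] (Z : Set A) (φ0 : A → Γ)
    (h0 : ∀ c ∈ X.K Z, ev φ0 (X.bd c) = 1) (F : Finset C) :
    ∃ φ : A → Γ, (∀ a, (a ∈ Z ∨ ∃ b, X.cell (a, b) ∈ X.K Z) → φ a = φ0 a) ∧
      ∀ c, (c ∈ X.K Z ∨ c ∈ F) → ev φ (X.bd c) = 1 := by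
  classical
  have main : ∀ n, ∀ F : Finset C, F.card = n → (∀ c ∈ F, c ∉ X.K Z) →
      ∃ φ : A → Γ, (∀ a, (a ∈ Z ∨ ∃ b, X.cell (a, b) ∈ X.K Z) → φ a = φ0 a) ∧
        ∀ c, (c ∈ X.K Z ∨ c ∈ F) → ev φ (X.bd c) = 1 := by
    intro n
    induction n with
    | zero =>
      intro F hF _
      rw [Finset.card_eq_zero] at hF
      subst hF
      exact ⟨φ0, fun _ _ => rfl, fun c hc => h0 c (by simpa using hc)⟩
    | succ n ih =>
      intro F hF hd
      obtain ⟨c0, hc0⟩ : F.Nonempty := Finset.card_pos.1 (by omega)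
      obtain ⟨c, hc, d, hdF, hadj⟩ := X.exit F hc0 (hd c0 hc0)
      have hdK : d ∉ X.K Z := fun h => hd c hc (X.K_of_adj h (Adj.symm X hadj))
      obtain ⟨a, b, ha, h1, h2⟩ := hadj
      obtain ⟨φ, hφ1, hφ2⟩ := ih (F.erase c) (by rw [Finset.card_erase_of_mem hc]; omega)
        fun e he => hd e (Finset.mem_of_mem_erase he)
      obtain ⟨ψ, hψ1, hψ2⟩ := X.solve φ h1 (by rw [h2]; rintro rfl; exact hdF hc)
      have side : ∀ b', X.cell (a, b') = c ∨ X.cell (a, b') = d := by
        intro b'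
        by_cases hb : b' = b
        · exact Or.inl (hb ▸ h1)
        · have : b' = !b := by cases b <;> cases b' <;> simp_all
          exact Or.inr (this ▸ h2)
      refine ⟨ψ, fun a' h => ?_, fun e he => ?_⟩
      · rw [hψ1 a' ?_, hφ1 a' h]
        rintro rfl
        rcases h with h | ⟨b', h⟩
        · exact ha h
        · rcases side b' with h' | h' <;> rw [h'] at h
          · exact hd c hc h
          · exact hdK h
      · by_cases hec : e = c
        · rw [hec]; exact hψ2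
        · rw [← hφ2 e (he.imp id fun h => Finset.mem_erase.2 ⟨hec, h⟩)]
          refine ev_congr fun x hx => hψ1 _ ?_
          intro hxa
          obtain ⟨b', hb'⟩ := X.mem_bd hx
          rw [hxa] at hb'
          rcases side b' with h' | h' <;> rw [h'] at hb'
          · exact hec hb'.symm
          · subst hb'
            rcases he with he | he
            · exact hdK he
            · exact hdF he
  obtain ⟨φ, h1, h2⟩ := main _ (F.filter fun c => c ∉ X.K Z) rfl
    fun c hc => (Finset.mem_filter.1 hc).2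
  refine ⟨φ, h1, fun c hc => h2 c ?_⟩
  by_cases h : c ∈ X.K Z
  · exact Or.inl h
  · exact Or.inr (Finset.mem_filter.2 ⟨hc.resolve_left h, h⟩)

/-- HULL: an identity between words in `Z` that follows from finitely many cells follows from
the cells of `K`. -/
theorem hull {Γ : Type*} [Group Γ] (Z : Set A) (w w' : List (A × Bool))
    (hw : ∀ x ∈ w, x.1 ∈ Z) (hw' : ∀ x ∈ w', x.1 ∈ Z) (F : Finset C)
    (hF : ∀ φ : A → Γ, (∀ c ∈ F, ev φ (X.bd c) = 1) → ev φ w = ev φ w')
    (φ0 : A → Γ) (h0 : ∀ c ∈ X.K Z, ev φ0 (X.bd c) = 1) : ev φ0 w = ev φ0 w' := by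
  obtain ⟨φ, h1, h2⟩ := X.ext_kill Z φ0 h0 F
  rw [← ev_congr fun x hx => h1 x.1 (Or.inl (hw x hx)),
    ← ev_congr fun x hx => h1 x.1 (Or.inl (hw' x hx))]
  exact hF φ fun c hc => h2 c (Or.inr hc)

/-- A bounded weight on sides with surplus at every cell of `S`. -/
structure Wt (S : Set C) (y : A × Bool → ℝ) (Y : ℝ) : Prop where
  anti : ∀ a, y (a, true) + y (a, false) ≤ 0
  le : ∀ z, y z ≤ Y
  sur : ∀ c ∈ S, 1 ≤ ((X.L c).map y).sum

theorem card_le {S : Set C} {y : A × Bool → ℝ} {Y : ℝ} (hy : X.Wt S y Y) (Z : Set A)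
    (T : Finset C) (hS : ∀ c ∈ T, c ∈ S) (hT : ∀ c ∈ T, ∀ d, X.Adj Z c d → d ∈ T)
    (B : Finset (A × Bool)) (hB : ∀ z, z ∈ B ↔ z.1 ∈ Z ∧ X.cell z ∈ T) :
    (T.card : ℝ) ≤ Y * B.card := by
  classical
  set U : Finset (A × Bool) := T.biUnion fun c => (X.L c).toFinset with hU
  have memU : ∀ z, z ∈ U ↔ X.cell z ∈ T := by
    intro z
    simp only [hU, Finset.mem_biUnion, List.mem_toFinset, X.mem]
    exact ⟨fun ⟨c, hc, h⟩ => h ▸ hc, fun h => ⟨_, h, rfl⟩⟩
  have h1 : (T.card : ℝ) ≤ ∑ z ∈ U, y z := by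
    rw [hU, Finset.sum_biUnion]
    · calc (T.card : ℝ) = ∑ _c ∈ T, (1 : ℝ) := by simp
        _ ≤ _ := Finset.sum_le_sum fun c hc => by
          rw [List.sum_toFinset _ (X.nodup c)]; exact hy.sur c (hS c hc)
    · intro c _ d _ hcd
      refine Finset.disjoint_left.2 fun z h1 h2 => hcd ?_
      rw [List.mem_toFinset, X.mem] at h1 h2
      exact h1.symm.trans h2
  have hBU : B = U.filter fun z => z.1 ∈ Z := by
    ext z; rw [hB, Finset.mem_filter, memU, and_comm]
  rw [← Finset.sum_filter_add_sum_filter_not U fun z => z.1 ∈ Z, ← hBU] at h1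
  have h2 : ∑ z ∈ B, y z ≤ Y * B.card := by
    calc ∑ z ∈ B, y z ≤ ∑ _z ∈ B, Y := Finset.sum_le_sum fun z _ => hy.le z
      _ = Y * B.card := by simp [mul_comm]
  set V := U.filter fun z => ¬ z.1 ∈ Z with hV
  have hflip : ∀ z ∈ V, (z.1, !z.2) ∈ V := by
    intro z hz
    rw [hV, Finset.mem_filter, memU] at hz ⊢
    exact ⟨hT _ hz.1 _ ⟨z.1, z.2, hz.2, rfl, rfl⟩, hz.2⟩
  have h3 : ∑ z ∈ V, y z = ∑ z ∈ V, y (z.1, !z.2) := by
    refine Finset.sum_bij' (fun z _ => (z.1, !z.2)) (fun z _ => (z.1, !z.2)) hflip hflip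
      (fun z _ => by simp) (fun z _ => by simp) (fun z _ => by simp)
  have h4 : ∑ z ∈ V, (y z + y (z.1, !z.2)) ≤ 0 := by
    refine Finset.sum_nonpos fun z _ => ?_
    obtain ⟨a, b⟩ := z
    have := hy.anti a
    cases b
    · simp only [Bool.not_false]; linarith
    · simp only [Bool.not_true]; linarith
  rw [Finset.sum_add_distrib] at h4
  linarith

/-- cells within `n` dual steps (off `Z`) of a cell that has a side in `Z` -/
inductive Near (Z : Set A) : ℕ → C → Prop
  | base (n : ℕ) (z : A × Bool) : z.1 ∈ Z → Near Z n (X.cell z)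
  | step (n : ℕ) (c d : C) : Near Z n c → X.Adj Z c d → Near Z (n + 1) d

theorem Near.succ {Z : Set A} {n : ℕ} {c : C} (h : X.Near Z n c) : X.Near Z (n + 1) c := by
  induction h with
  | base n z hz => exact Near.base _ z hz
  | step n c d _ h ih => exact Near.step _ c d ih h

theorem Near.mono {Z : Set A} {n m : ℕ} {c : C} (h : X.Near Z n c) (hnm : n ≤ m) :
    X.Near Z m c := by
  induction hnm with
  | refl => exact h
  | step _ ih => exact Near.succ X ih

/-- SIZE: a finite component inside `S` lies within distance `2 Y |Z|` of `Z`. -/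
theorem near_of_K {S : Set C} {y : A × Bool → ℝ} {Y : ℝ} (hy : X.Wt S y Y) (Z : Finset A)
    {c : C} (hc : c ∈ X.K (Z : Set A))
    (hS : ∀ d, ReflTransGen (X.Adj (Z : Set A)) c d → d ∈ S) (n : ℕ)
    (hn : Y * (2 * Z.card) ≤ n) : X.Near (Z : Set A) n c := by
  classical
  have hc' : {d | ReflTransGen (X.Adj (Z : Set A)) c d}.Finite := hc
  set T : Finset C := hc'.toFinset with hT
  have memT : ∀ d, d ∈ T ↔ ReflTransGen (X.Adj (Z : Set A)) c d := fun d =>
    hc'.mem_toFinset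
  have hcl : ∀ d ∈ T, ∀ e, X.Adj (Z : Set A) d e → e ∈ T := fun d hd e h =>
    (memT e).2 (((memT d).1 hd).tail h)
  set B : Finset (A × Bool) := (Z ×ˢ (Finset.univ : Finset Bool)).filter fun z => X.cell z ∈ T
    with hB
  have memB : ∀ z, z ∈ B ↔ z.1 ∈ (Z : Set A) ∧ X.cell z ∈ T := fun z => by simp [hB]
  have h1 := X.card_le hy (Z : Set A) T (fun d hd => hS d ((memT d).1 hd)) hcl B memB
  have hcT : c ∈ T := (memT c).2 ReflTransGen.refl
  have hpos : (1 : ℝ) ≤ T.card := by exact_mod_cast Finset.card_pos.2 ⟨c, hcT⟩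
  have hBc : (B.card : ℝ) ≤ 2 * Z.card := by
    have : B.card ≤ (Z ×ˢ (Finset.univ : Finset Bool)).card := Finset.card_filter_le _ _
    rw [Finset.card_product] at this
    simp only [Finset.card_univ, Fintype.card_bool] at this
    have h' : (B.card : ℝ) ≤ ((Z.card * 2 : ℕ) : ℝ) := by exact_mod_cast this
    push_cast at h'; linarith
  have hB0 : (0 : ℝ) ≤ B.card := Nat.cast_nonneg _
  have hY : 0 < Y := by
    by_contra h
    have : Y * B.card ≤ 0 := mul_nonpos_of_nonpos_of_nonneg (not_lt.1 h) hB0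
    linarith
  have hTn : T.card ≤ n := by
    have : (T.card : ℝ) ≤ n := h1.trans ((mul_le_mul_of_nonneg_left hBc hY.le).trans hn)
    exact_mod_cast this
  have hBne : B.Nonempty := by
    rw [Finset.nonempty_iff_ne_empty]
    intro h
    rw [h] at h1
    simp only [Finset.card_empty, Nat.cast_zero, mul_zero] at h1
    linarith
  obtain ⟨z0, hz0⟩ := hBne
  obtain ⟨hz1, hz2⟩ := (memB z0).1 hz0
  have grow : ∀ k : ℕ, X.Near (Z : Set A) k c ∨
      k < (T.filter fun d => X.Near (Z : Set A) k d).card := by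
    intro k
    induction k with
    | zero =>
      exact Or.inr (Finset.card_pos.2 ⟨_, Finset.mem_filter.2 ⟨hz2, Near.base 0 z0 hz1⟩⟩)
    | succ k ih =>
      rcases ih with ih | ih
      · exact Or.inl (Near.succ X ih)
      by_cases hall : ∀ d ∈ T, X.Near (Z : Set A) (k + 1) d → X.Near (Z : Set A) k d
      · left
        have back : ∀ d, ReflTransGen (X.Adj (Z : Set A)) c d → X.Near (Z : Set A) k d →
            X.Near (Z : Set A) k c := by
          intro d hd
          induction hd with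
          | refl => exact id
          | tail h1 h2 ih2 =>
            intro h
            exact ih2 (hall _ ((memT _).2 h1) (Near.step _ _ _ h (Adj.symm X h2)))
        exact Near.succ X (back _ ((memT _).1 hz2) (Near.base k z0 hz1))
      · right
        push Not at hall
        obtain ⟨d, hd, h1, h2⟩ := hall
        refine lt_of_le_of_lt (Nat.succ_le_of_lt ih) (Finset.card_lt_card ?_)
        rw [Finset.ssubset_iff_of_subset]
        · exact ⟨d, Finset.mem_filter.2 ⟨hd, h1⟩, fun h => h2 (Finset.mem_filter.1 h).2⟩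
        · intro e he
          exact Finset.mem_filter.2 ⟨(Finset.mem_filter.1 he).1,
            Near.succ X (Finset.mem_filter.1 he).2⟩
  rcases grow n with h | h
  · exact h
  · exact absurd (lt_of_lt_of_le h ((Finset.card_filter_le _ _).trans hTn)) (lt_irrefl _)

end Sq

end Pool.Agent.Work.MP_3d425c_gt.Nv
end

-- merged part: Pool.Agent.Work.MP_3d425c_gt.Nv.Sys
section
/-! Words of arcs in a leaf: validity, end point, homotopy (for Novikov's theorem). -/

namespace Pool.Agent.Work.MP_3d425c_gt.Nv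
open Set Filter Topology Relation

universe u

/-- Carriers `B` (each with a line of levels), walls `W` with global level maps. -/
structure Sys (B W : Type u) where
  src : W → B
  tgt : W → B
  m : W → ℝ ≃o ℝ

/-- The inverse letter. -/
def linv {W : Type u} (l : W × Bool) : W × Bool := (l.1, !l.2)

/-- The inverse word. -/
def rev {W : Type u} (p : List (W × Bool)) : List (W × Bool) := (p.map linv).reverse

/-- Two-cells: a base carrier and a boundary word. -/
structure Cells (B W C : Type u) where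
  base : C → B
  word : C → List (W × Bool)

namespace Sys
variable {B W C : Type u} (X : Sys B W)

def s (l : W × Bool) : B := if l.2 then X.src l.1 else X.tgt l.1
def t (l : W × Bool) : B := if l.2 then X.tgt l.1 else X.src l.1
def mp (l : W × Bool) : ℝ ≃o ℝ := if l.2 then X.m l.1 else (X.m l.1).symm
/-- the level of the arc (on the source carrier of the wall) crossed by `l` from level `x` -/
def al (l : W × Bool) (x : ℝ) : ℝ := if l.2 then x else (X.m l.1).symm x
def step (x : B × ℝ) (l : W × Bool) : B × ℝ := (X.t l, X.mp l x.2)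
/-- formal end point of a word -/
def go (x : B × ℝ) (p : List (W × Bool)) : B × ℝ := p.foldl X.step x

/-- the word `p` is valid from the point `x` (arcs of `w` exist at the levels `D w`) -/
def Def (D : W → Set ℝ) : B × ℝ → List (W × Bool) → Prop
  | _, [] => True
  | x, l :: p => X.s l = x.1 ∧ X.al l x.2 ∈ D l.1 ∧ Def D (X.step x l) p

/-- the signed arcs crossed -/
def arcs : B × ℝ → List (W × Bool) → List ((W × ℝ) × Bool)
  | _, [] => []
  | x, l :: p => ((l.1, X.al l x.2), l.2) :: arcs (X.step x l) p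

/-- value of a labelling of arcs on a word -/
def val {Γ : Type*} [Group Γ] (Ψ : W × ℝ → Γ) (x : B × ℝ) (p : List (W × Bool)) : Γ :=
  FreeGroup.lift Ψ (FreeGroup.mk (X.arcs x p))

/-- the level-free system -/
def flat : Sys B W := { X with m := fun _ => OrderIso.refl ℝ }

/-- a backtrack or the boundary of a valid cell -/
def Rl (K : Cells B W C) (E : C → Set ℝ) (y : B × ℝ) (r : List (W × Bool)) : Prop :=
  (∃ l, r = [l, linv l]) ∨ ∃ c, y.1 = K.base c ∧ y.2 ∈ E c ∧ r = K.word c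

def Mv (D : W → Set ℝ) (K : Cells B W C) (E : C → Set ℝ) (x : B × ℝ)
    (p q : List (W × Bool)) : Prop :=
  X.Def D x p ∧ ∃ p1 r p2, p = p1 ++ r ++ p2 ∧ q = p1 ++ p2 ∧ Rl K E (X.go x p1) r

/-- homotopy in the leaf -/
def Hd (D : W → Set ℝ) (K : Cells B W C) (E : C → Set ℝ) (x : B × ℝ)
    (p q : List (W × Bool)) : Prop :=
  X.Def D x p ∧ EqvGen (X.Mv D K E x) p q

/-- valid cells have valid closed boundary words -/
def CV (D : W → Set ℝ) (K : Cells B W C) (E : C → Set ℝ) : Prop :=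
  ∀ c, ∀ a ∈ E c, X.Def D (K.base c, a) (K.word c) ∧
    X.go (K.base c, a) (K.word c) = (K.base c, a)

/-- `Ψ` kills the cell `κ` -/
def Kills {Γ : Type*} [Group Γ] (K : Cells B W C) (Ψ : W × ℝ → Γ) (κ : C × ℝ) : Prop :=
  X.val Ψ (K.base κ.1, κ.2) (K.word κ.1) = 1

/-- signed boundary arcs of a cell -/
def bd (K : Cells B W C) (κ : C × ℝ) : List ((W × ℝ) × Bool) :=
  X.arcs (K.base κ.1, κ.2) (K.word κ.1)

/-- congruence on valid words (without the all-or-nothing property) -/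
structure Cong (D : W → Set ℝ) (H : B × ℝ → List (W × Bool) → List (W × Bool) → Prop) : Prop where
  dfl : ∀ {x p q}, H x p q → X.Def D x p
  go_eq : ∀ {x p q}, H x p q → X.go x p = X.go x q
  refl : ∀ {x p}, X.Def D x p → H x p p
  symm : ∀ {x p q}, H x p q → H x q p
  trans : ∀ {x p q r}, H x p q → H x q r → H x p r
  app_r : ∀ {x p q r}, H x p q → X.Def D (X.go x p) r → H x (p ++ r) (q ++ r)
  app_l : ∀ {x p q r}, X.Def D x r → H (X.go x r) p q → H x (r ++ p) (r ++ q)
  cancel : ∀ {x l}, X.Def D x [l] → H x [l, linv l] []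

/-- all or nothing -/
def AON (D : W → Set ℝ) (H : B × ℝ → List (W × Bool) → List (W × Bool) → Prop) : Prop :=
  ∀ b a a' p q, H (b, a) p q → X.Def D (b, a') p → X.Def D (b, a') q → H (b, a') p q

/-- go up in a carrier, then along the leaf -/
def Step (D : W → Set ℝ) (x y : B × ℝ) : Prop :=
  ∃ a p, x.2 < a ∧ X.Def D (x.1, a) p ∧ X.go (x.1, a) p = y

variable {X} {D : W → Set ℝ} {K : Cells B W C} {E : C → Set ℝ}

@[simp] theorem _root_.Pool.Agent.Work.MP_3d425c_gt.Nv.linv_linv (l : W × Bool) :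
    linv (linv l) = l := by simp [linv]
@[simp] theorem _root_.Pool.Agent.Work.MP_3d425c_gt.Nv.rev_nil :
    rev ([] : List (W × Bool)) = [] := rfl
@[simp] theorem _root_.Pool.Agent.Work.MP_3d425c_gt.Nv.rev_cons (l : W × Bool) (p) :
    rev (l :: p) = rev p ++ [linv l] := by simp [rev]
@[simp] theorem _root_.Pool.Agent.Work.MP_3d425c_gt.Nv.rev_append (p q : List (W × Bool)) :
    rev (p ++ q) = rev q ++ rev p := by simp [rev]
@[simp] theorem _root_.Pool.Agent.Work.MP_3d425c_gt.Nv.rev_rev (p : List (W × Bool)) :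
    rev (rev p) = p := by
  induction p with
  | nil => rfl
  | cons l p ih => simp [ih]

@[simp] theorem s_linv (l : W × Bool) : X.s (linv l) = X.t l := by
  rcases l with ⟨w, _ | _⟩ <;> rfl
@[simp] theorem t_linv (l : W × Bool) : X.t (linv l) = X.s l := by
  rcases l with ⟨w, _ | _⟩ <;> rfl
@[simp] theorem mp_linv (l : W × Bool) (x : ℝ) : X.mp (linv l) (X.mp l x) = x := by
  rcases l with ⟨w, _ | _⟩ <;> simp [mp, linv]
@[simp] theorem al_linv (l : W × Bool) (x : ℝ) : X.al (linv l) (X.mp l x) = X.al l x := by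
  rcases l with ⟨w, _ | _⟩ <;> simp [mp, al, linv]
@[simp] theorem linv_fst (l : W × Bool) : (linv l).1 = l.1 := rfl

@[simp] theorem go_nil (x : B × ℝ) : X.go x [] = x := rfl
@[simp] theorem go_cons (x : B × ℝ) (l p) : X.go x (l :: p) = X.go (X.step x l) p := rfl
theorem go_append (x : B × ℝ) (p q) : X.go x (p ++ q) = X.go (X.go x p) q := List.foldl_append
@[simp] theorem def_nil (x : B × ℝ) : X.Def D x [] := trivial
theorem def_cons (x : B × ℝ) (l p) : X.Def D x (l :: p) ↔
    X.s l = x.1 ∧ X.al l x.2 ∈ D l.1 ∧ X.Def D (X.step x l) p := Iff.rfl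

theorem def_append {x : B × ℝ} {p q} :
    X.Def D x (p ++ q) ↔ X.Def D x p ∧ X.Def D (X.go x p) q := by
  induction p generalizing x with
  | nil => simp
  | cons l p ih => simp [def_cons, ih, and_assoc]

theorem step_linv {x : B × ℝ} {l} (h : X.s l = x.1) : X.step (X.step x l) (linv l) = x := by
  ext <;> simp [step, h]

theorem def_rev {x : B × ℝ} {p} (h : X.Def D x p) :
    X.Def D (X.go x p) (rev p) ∧ X.go (X.go x p) (rev p) = x := by
  induction p generalizing x with
  | nil => simp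
  | cons l p ih =>
    obtain ⟨h1, h2, h3⟩ := h
    obtain ⟨i1, i2⟩ := ih h3
    simp only [go_cons, rev_cons, def_append, go_append, i1, i2, true_and, go_nil, def_cons,
      def_nil, and_true, step_linv h1]
    exact ⟨by simp [step], by simpa [step] using h2⟩

theorem Def.mono {D' : W → Set ℝ} (hD : ∀ w, D w ⊆ D' w) {x : B × ℝ} {p} (h : X.Def D x p) :
    X.Def D' x p := by
  induction p generalizing x with
  | nil => trivial
  | cons l p ih => exact ⟨h.1, hD _ h.2.1, ih h.2.2⟩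

theorem go_fst (b : B) (a a' : ℝ) (p) : (X.go (b, a) p).1 = (X.go (b, a') p).1 := by
  induction p generalizing b a a' with
  | nil => rfl
  | cons l p ih => exact ih _ _ _

/-- the level map of a word -/
def hol (X : Sys B W) : List (W × Bool) → ℝ ≃o ℝ
  | [] => OrderIso.refl ℝ
  | l :: p => (X.mp l).trans (hol X p)

theorem go_snd (x : B × ℝ) (p) : (X.go x p).2 = X.hol p x.2 := by
  induction p generalizing x with
  | nil => rfl
  | cons l p ih => exact ih _

theorem arcs_append (x : B × ℝ) (p q) :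
    X.arcs x (p ++ q) = X.arcs x p ++ X.arcs (X.go x p) q := by
  induction p generalizing x with
  | nil => rfl
  | cons l p ih => simp [arcs, ih]

section val
variable {Γ : Type*} [Group Γ] (Ψ : W × ℝ → Γ)
@[simp] theorem val_nil (x : B × ℝ) : X.val Ψ x [] = 1 := by
  simp [val, arcs, ← FreeGroup.one_eq_mk]
theorem val_append (x : B × ℝ) (p q) :
    X.val Ψ x (p ++ q) = X.val Ψ x p * X.val Ψ (X.go x p) q := by
  simp only [val, arcs_append, ← FreeGroup.mul_mk, map_mul]
theorem val_cons (x : B × ℝ) (l p) : X.val Ψ x (l :: p) =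
    (if l.2 then Ψ (l.1, X.al l x.2) else (Ψ (l.1, X.al l x.2))⁻¹) * X.val Ψ (X.step x l) p := by
  rcases l with ⟨w, _ | _⟩ <;> simp [val, arcs, FreeGroup.lift_mk]
theorem val_back (x : B × ℝ) (l) : X.val Ψ x [l, linv l] = 1 := by
  rcases l with ⟨w, _ | _⟩ <;> simp [val_cons, linv, al, step, mp]
end val

theorem Rl.closed (hC : X.CV D K E) {y : B × ℝ} {r} (h : Rl K E y r) (hd : X.Def D y r) :
    X.go y r = y := by
  rcases h with ⟨l, rfl⟩ | ⟨c, h1, h2, rfl⟩
  · simpa using step_linv hd.1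
  · obtain ⟨b, a⟩ := y
    obtain rfl : b = K.base c := h1
    exact (hC c a h2).2

theorem Mv.spec (hC : X.CV D K E) {x : B × ℝ} {p q} (h : X.Mv D K E x p q) :
    X.Def D x q ∧ X.go x p = X.go x q := by
  obtain ⟨hd, p1, r, p2, rfl, rfl, hr⟩ := h
  rw [def_append, def_append, go_append] at hd
  have e := hr.closed hC hd.1.2
  rw [e] at hd
  exact ⟨def_append.2 ⟨hd.1.1, hd.2⟩, by rw [go_append, go_append, e, go_append]⟩

theorem eqv_spec (hC : X.CV D K E) {x : B × ℝ} {p q} (h : EqvGen (X.Mv D K E x) p q) :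
    (X.Def D x p ↔ X.Def D x q) ∧ X.go x p = X.go x q := by
  induction h with
  | rel p q h => exact ⟨iff_of_true h.1 (h.spec hC).1, (h.spec hC).2⟩
  | refl => exact ⟨Iff.rfl, rfl⟩
  | symm _ _ _ ih => exact ⟨ih.1.symm, ih.2.symm⟩
  | trans _ _ _ _ _ i j => exact ⟨i.1.trans j.1, i.2.trans j.2⟩

theorem eqv_map {α β : Type*} {r : α → α → Prop} {r' : β → β → Prop} (f : α → β)
    (hf : ∀ a b, r a b → r' (f a) (f b)) {a b} (h : EqvGen r a b) : EqvGen r' (f a) (f b) := by
  induction h with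
  | rel p q h => exact .rel _ _ (hf _ _ h)
  | refl => exact .refl _
  | symm _ _ _ ih => exact ih.symm _ _
  | trans _ _ _ _ _ i j => exact i.trans _ _ _ j

theorem cong_hd (hC : X.CV D K E) : X.Cong D (X.Hd D K E) where
  dfl h := h.1
  go_eq h := (eqv_spec hC h.2).2
  refl h := ⟨h, .refl _⟩
  symm h := ⟨(eqv_spec hC h.2).1.1 h.1, h.2.symm _ _⟩
  trans h k := ⟨h.1, h.2.trans _ _ _ k.2⟩
  app_r := by
    intro x p q r h hr
    refine ⟨def_append.2 ⟨h.1, hr⟩, ?_⟩
    obtain ⟨-, h⟩ := h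
    induction h with
    | rel p q h =>
      obtain ⟨hd, p1, r', p2, rfl, rfl, h'⟩ := h
      exact .rel _ _ ⟨def_append.2 ⟨hd, hr⟩, p1, r', p2 ++ r, by simp, by simp, h'⟩
    | refl => exact .refl _
    | symm _ _ h ih => exact (ih (by rwa [(eqv_spec hC h).2])).symm _ _
    | trans _ _ _ h _ i j => exact (i hr).trans _ _ _ (j (by rwa [← (eqv_spec hC h).2]))
  app_l := by
    intro x p q r hr h
    refine ⟨def_append.2 ⟨hr, h.1⟩, eqv_map (r ++ ·) ?_ h.2⟩
    rintro p q ⟨hd, p1, r', p2, rfl, rfl, h'⟩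
    exact ⟨def_append.2 ⟨hr, hd⟩, r ++ p1, r', p2, by simp, by simp, by rwa [go_append]⟩
  cancel := by
    intro x l h
    have hd : X.Def D x [l, linv l] :=
      ⟨h.1, h.2.1, by simp [step], by simpa [step] using h.2.1, trivial⟩
    exact ⟨hd, .rel _ _ ⟨hd, [], [l, linv l], [], rfl, rfl, .inl ⟨l, rfl⟩⟩⟩

theorem hd_cell (hC : X.CV D K E) {c a} (h : a ∈ E c) :
    X.Hd D K E (K.base c, a) (K.word c) [] :=
  ⟨(hC c a h).1, .rel _ _ ⟨(hC c a h).1, [], _, [], by simp, rfl, .inr ⟨c, rfl, h, rfl⟩⟩⟩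

namespace Cong
variable {H : B × ℝ → List (W × Bool) → List (W × Bool) → Prop} (h : X.Cong D H)
include h

theorem dfr {x p q} (k : H x p q) : X.Def D x q := h.dfl (h.symm k)

theorem app {x p q r r'} (k : H x p q) (k' : H (X.go x p) r r') : H x (p ++ r) (q ++ r') :=
  h.trans (h.app_r k (h.dfl k')) (h.app_l (h.dfr k) (by rwa [← h.go_eq k]))

theorem mul_rev {x p} (k : X.Def D x p) : H x (p ++ rev p) [] := by
  induction p generalizing x with
  | nil => exact h.refl trivial
  | cons l p ih =>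
    have k1 : X.Def D x [l] := ⟨k.1, k.2.1, trivial⟩
    have k2 := (def_rev (X := X) (D := D) k1).1
    have e : l :: p ++ rev (l :: p) = [l] ++ ((p ++ rev p) ++ [linv l]) := by simp
    rw [e]
    refine h.trans (h.app_l k1 (h.app_r (ih k.2.2) ?_)) (h.cancel k1)
    have e2 : X.go (X.go x [l]) (p ++ rev p) = X.go x [l] := h.go_eq (ih k.2.2)
    rw [e2]
    exact k2

theorem rev_mul {x p} (k : X.Def D x p) : H (X.go x p) (rev p ++ p) [] := by
  simpa using h.mul_rev (def_rev k).1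

theorem of_mul_rev {x p q} (hq : X.Def D x q) (k : H x (p ++ rev q) []) (e : X.go x p = X.go x q) :
    H x p q := by
  have hp := (def_append.1 (h.dfl k)).1
  have k1 : H x ((p ++ rev q) ++ q) ([] ++ q) := h.app_r k (by rw [h.go_eq k]; exact hq)
  have k2 : H x (p ++ (rev q ++ q)) (p ++ []) := h.app_l hp (by rw [e]; exact h.rev_mul hq)
  simp only [List.append_nil, List.nil_append, List.append_assoc] at k1 k2
  exact h.trans (h.symm k2) k1

theorem to_mul_rev {x p q} (k : H x p q) : H x (p ++ rev q) [] :=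
  h.trans (h.app_r k (by rw [h.go_eq k]; exact (def_rev (h.dfr k)).1)) (h.mul_rev (h.dfr k))

theorem rev {x p q} (k : H x p q) : H (X.go x p) (Nv.rev p) (Nv.rev q) := by
  have hp := h.dfl k
  have hq := h.dfr k
  refine h.of_mul_rev (by rw [h.go_eq k]; exact (def_rev hq).1) ?_
    (by rw [(def_rev hp).2, h.go_eq k, (def_rev hq).2])
  rw [rev_rev]
  refine h.trans (h.app_l (def_rev hp).1 ?_) (h.rev_mul hp)
  rw [(def_rev hp).2]
  exact h.symm k

end Cong

/-! Statements of the blocks. -/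

/-- sets that are open and closed for the one-sided filters `F` -/
def FCl (F : ℝ → Filter ℝ) (S : Set ℝ) : Prop :=
  ∀ a, (a ∈ S → ∀ᶠ x in F a, x ∈ S) ∧ ((∃ᶠ x in F a, x ∈ S) → a ∈ S)

/-- a side: `F a = 𝓝[>] a` or `𝓝[<] a` -/
structure Side (F : ℝ → Filter ℝ) : Prop where
  le : ∀ a, F a ≤ 𝓝 a
  map : ∀ (f : ℝ ≃o ℝ) a, Tendsto f (F a) (F (f a))

/-- the valid cells form a surface with a bounded weight with surplus, locally finite -/
structure Surf (X : Sys B W) (D : W → Set ℝ) (K : Cells B W C) (E : C → Set ℝ) where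
  Q : Sq {α : W × ℝ // α.2 ∈ D α.1} {κ : C × ℝ // κ.2 ∈ E κ.1}
  bd_eq : ∀ κ, (Q.bd κ).map (fun z => (z.1.1, z.2)) = X.bd K κ.1
  y : {α : W × ℝ // α.2 ∈ D α.1} × Bool → ℝ
  Y : ℝ
  wt : Q.Wt univ y Y
  len : ∃ N : ℕ, ∀ c, (K.word c).length ≤ N
  finW : ∀ b, {w | X.src w = b ∨ X.tgt w = b}.Finite
  finC : ∀ b, {c | K.base c = b}.Finite

end Sys
end Pool.Agent.Work.MP_3d425c_gt.Nv
end

-- merged part: Pool.Agent.Work.MP_3d425c_gt.Nv.Hel
section
/-! Chains of compatible intervals (a connected Hausdorff space étale over a line is a line). -/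

namespace Pool.Agent.Work.MP_3d425c_gt.Nv
open Set Relation

variable {ι α : Type*} [LinearOrder α]

structure Hel (J : ι → Set α) (R : ι → ι → Prop) : Prop where
  oc : ∀ i, (J i).OrdConnected
  refl : ∀ i, R i i
  symm : ∀ {i j}, R i j → R j i
  ne : ∀ {i j}, R i j → (J i ∩ J j).Nonempty
  tr : ∀ {i j k a}, R i j → R j k → a ∈ J i → a ∈ J j → a ∈ J k → R i k

def HSt (J : ι → Set α) (R : ι → ι → Prop) (x y : ι × α) : Prop :=
  x.2 < y.2 ∧ ∃ c, R x.1 c ∧ R c y.1 ∧ x.2 ∈ J x.1 ∧ x.2 ∈ J c ∧ y.2 ∈ J c ∧ y.2 ∈ J y.1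

variable {J : ι → Set α} {R : ι → ι → Prop}

theorem hst_lt {x y : ι × α} (h : TransGen (HSt J R) x y) : x.2 < y.2 := by
  induction h with
  | single h => exact h.1
  | tail _ h ih => exact ih.trans h.1

namespace Hel
variable (h : Hel J R)
include h

theorem btw {i} {a b c : α} (ha : a ∈ J i) (hc : c ∈ J i) (h1 : a ≤ b) (h2 : b ≤ c) : b ∈ J i :=
  (h.oc i).out ha hc ⟨h1, h2⟩

theorem cover {x y : ι × α} (k : TransGen (HSt J R) x y) {v} (h1 : x.2 ≤ v) (h2 : v ≤ y.2) :
    ∃ c, v ∈ J c := by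
  induction k with
  | single k => obtain ⟨-, c, -, -, -, k1, k2, -⟩ := k; exact ⟨c, h.btw k1 k2 h1 h2⟩
  | @tail z y _ k ih =>
    obtain ⟨-, c, -, -, -, k1, k2, -⟩ := k
    rcases le_total v z.2 with h3 | h3
    · exact ih h3
    · exact ⟨c, h.btw k1 k2 h3 h2⟩

theorem trunc_up {x y : ι × α} (k : TransGen (HSt J R) x y) {j a} (ha : a ∈ J j) (h1 : x.2 ≤ a)
    (hR : R y.1 j) (h2 : a ≤ y.2) (hy : y.2 ∈ J j) :
    (x.2 = a → R x.1 j) ∧ (x.2 < a → TransGen (HSt J R) x (j, a)) := by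
  induction k with
  | single k =>
    obtain ⟨-, c, k1, k2, k3, k4, k5, k6⟩ := k
    have r := h.tr k2 hR k5 k6 hy
    exact ⟨fun e => h.tr k1 r k3 k4 (e ▸ ha),
      fun l => .single ⟨l, c, k1, r, k3, k4, h.btw k4 k5 h1 h2, ha⟩⟩
  | @tail z y k0 k ih =>
    obtain ⟨l, c, k1, k2, k3, k4, k5, k6⟩ := k
    have r := h.tr k2 hR k5 k6 hy
    rcases le_or_gt a z.2 with h3 | h3
    · have hz := h.btw ha hy h3 l.le
      exact ih (h.tr k1 r k3 k4 hz) h3 hz
    · exact ⟨fun e => absurd e ((hst_lt k0).trans h3).ne,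
        fun _ => k0.tail ⟨h3, c, k1, r, k3, k4, h.btw k4 k5 h3.le h2, ha⟩⟩

theorem trunc_down {x y : ι × α} (k : TransGen (HSt J R) y x) {j a} (ha : a ∈ J j) (h1 : a ≤ x.2)
    (hR : R y.1 j) (h2 : y.2 ≤ a) (hy : y.2 ∈ J j) :
    (x.2 = a → R x.1 j) ∧ (a < x.2 → TransGen (HSt J R) (j, a) x) := by
  induction k using TransGen.head_induction_on with
  | single k =>
    obtain ⟨-, c, k1, k2, k3, k4, k5, k6⟩ := k
    have r := h.tr (h.symm k1) hR k4 k3 hy
    exact ⟨fun e => h.tr (h.symm k2) r k6 k5 (e ▸ ha),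
      fun l => .single ⟨l, c, h.symm r, k2, ha, h.btw k4 k5 h2 h1, k5, k6⟩⟩
  | @head y z k k0 ih =>
    obtain ⟨l, c, k1, k2, k3, k4, k5, k6⟩ := k
    have r := h.tr (h.symm k1) hR k4 k3 hy
    rcases le_or_gt z.2 a with h3 | h3
    · have hz := h.btw hy ha l.le h3
      exact ih (h.tr (h.symm k2) r k6 k5 hz) h3 hz
    · exact ⟨fun e => absurd e (h3.trans (hst_lt k0)).ne',
        fun _ => k0.head ⟨h3, c, h.symm r, k2, ha, h.btw k4 k5 h2 h3.le, k5, k6⟩⟩

theorem one {i j u a} (r : R i j) (hu : u ∈ J i) (hj : u ∈ J j) (ha : a ∈ J j) :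
    (u < a → TransGen (HSt J R) (i, u) (j, a)) ∧ (u = a → R i j) ∧
      (a < u → TransGen (HSt J R) (j, a) (i, u)) :=
  ⟨fun l => .single ⟨l, j, r, h.refl j, hu, hj, ha, ha⟩, fun _ => r,
    fun l => .single ⟨l, j, h.refl j, h.symm r, ha, ha, hj, hu⟩⟩

theorem tri {i j} (k : ReflTransGen R i j) {u} (hu : u ∈ J i) : ∀ a ∈ J j,
    (u < a → TransGen (HSt J R) (i, u) (j, a)) ∧ (u = a → R i j) ∧
      (a < u → TransGen (HSt J R) (j, a) (i, u)) := by
  induction k with
  | refl => exact fun a ha => h.one (h.refl i) hu hu ha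
  | @tail j j2 _ r ih =>
    intro a ha
    obtain ⟨w, w1, w2⟩ := h.ne r
    obtain ⟨i1, i2, i3⟩ := ih w w1
    rcases lt_trichotomy u w with l | l | l
    · have k := i1 l
      rcases le_total u a with l1 | l1
      · rcases le_or_gt a w with l2 | l2
        · have := h.trunc_up k ha l1 r l2 w2
          exact ⟨this.2, this.1, fun e => absurd e l1.not_gt⟩
        · exact ⟨fun _ => k.tail ⟨l2, j2, r, h.refl _, w1, w2, ha, ha⟩,
            fun e => absurd e (l.trans l2).ne, fun e => absurd e l1.not_gt⟩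
      · have hu2 := h.btw ha w2 l1 l.le
        exact h.one ((h.trunc_up k hu2 le_rfl r l.le w2).1 rfl) hu hu2 ha
    · subst l
      exact h.one (h.tr (i2 rfl) r hu w1 w2) hu w2 ha
    · have k := i3 l
      rcases le_total a u with l1 | l1
      · rcases le_or_gt w a with l2 | l2
        · have := h.trunc_down k ha l1 r l2 w2
          exact ⟨fun e => absurd e l1.not_gt, this.1, this.2⟩
        · exact ⟨fun e => absurd e l1.not_gt, fun e => absurd e (l2.trans l).ne',
            fun _ => k.head ⟨l2, j2, h.refl _, h.symm r, ha, ha, w2, w1⟩⟩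
      · have hu2 := h.btw w2 ha l.le l1
        exact h.one ((h.trunc_down k hu2 le_rfl r l.le w2).1 rfl) hu hu2 ha

end Hel
end Pool.Agent.Work.MP_3d425c_gt.Nv
end

-- merged part: Pool.Agent.Work.MP_3d425c_gt.Nv.Dev
section
/-! Developing: all-or-nothing homotopy and simple connectivity exclude closed positive chains. -/

namespace Pool.Agent.Work.MP_3d425c_gt.Nv
open Set Relation Sys

universe u
variable {B W C : Type u} {X : Sys B W} {D : W → Set ℝ}
  {H : B × ℝ → List (W × Bool) → List (W × Bool) → Prop}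

theorem dev_oc (oc : ∀ w, (D w).OrdConnected) (b : B) (p : List (W × Bool)) :
    {a | X.Def D (b, a) p}.OrdConnected := by
  induction p generalizing b with
  | nil => exact ordConnected_univ
  | cons l p ih =>
    have m : Monotone (X.al l) := by
      rcases l with ⟨w, _ | _⟩
      · exact (X.m w).symm.monotone
      · exact monotone_id
    refine ⟨fun a ha c hc v hv => ⟨ha.1, (oc _).out ha.2.1 hc.2.1 ⟨m hv.1, m hv.2⟩, ?_⟩⟩
    exact (ih (X.t l)).out ha.2.2 hc.2.2 ⟨(X.mp l).monotone hv.1, (X.mp l).monotone hv.2⟩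

theorem dev_go {b b' : B} {a : ℝ} {p} (h : (X.go (b, a) p).1 = b') (a' : ℝ) :
    X.go (b, a') p = (b', X.hol p a') :=
  Prod.ext ((go_fst b a' a p).trans h) (go_snd _ _)

theorem dev_hol_append (p q) (a : ℝ) : X.hol (p ++ q) a = X.hol q (X.hol p a) := by
  induction p generalizing a with
  | nil => rfl
  | cons l p ih => exact ih _

theorem dev_hol_rev (p) (a : ℝ) : X.hol (rev p) (X.hol p a) = a := by
  induction p generalizing a with
  | nil => rfl
  | cons l p ih =>
    rw [rev_cons, dev_hol_append]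
    show X.mp (linv l) (X.hol (rev p) (X.hol p (X.mp l a))) = a
    rw [ih, mp_linv]

theorem dev_hol_rev' (p) (a : ℝ) : X.hol p (X.hol (rev p) a) = a := by
  simpa using dev_hol_rev (X := X) (rev p) a

/-- finitely many copies of carriers with gluing words -/
structure Pre (X : Sys B W) (D : W → Set ℝ)
    (H : B × ℝ → List (W × Bool) → List (W × Bool) → Prop) where
  S : Type u
  b : S → B
  P : S → S → List (W × Bool) → Prop
  p0 : ∀ {n m p}, P n m p → ∃ a, X.Def D (b n, a) p ∧ (X.go (b n, a) p).1 = b m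
  p1 : ∀ n, P n n []
  p2 : ∀ {n m p}, P n m p → P m n (rev p)
  p3 : ∀ {n m k p q a}, P n m p → P m k q → X.Def D (b n, a) (p ++ q) → P n k (p ++ q)
  p4 : ∀ {n m p q a}, P n m p → H (b n, a) p q → P n m q
  p5 : ∀ {n m p q a}, P n m p → P n m q → X.Def D (b n, a) p → X.Def D (b n, a) q →
    H (b n, a) p q

namespace Pre
variable (σ : Pre X D H)

def Eqv (x y : σ.S × ℝ) : Prop :=
  ∃ p, σ.P x.1 y.1 p ∧ X.Def D (σ.b x.1, x.2) p ∧ X.hol p x.2 = y.2

def Stp (x y : σ.S × ℝ) : Prop := ∃ n a a', σ.Eqv x (n, a) ∧ a < a' ∧ σ.Eqv (n, a') y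

def NC : Prop := ∀ x, ¬ TransGen σ.Stp x x

variable {σ}

theorem go_eq {n m p} (h : σ.P n m p) (a : ℝ) : X.go (σ.b n, a) p = (σ.b m, X.hol p a) :=
  let ⟨_, _, k⟩ := σ.p0 h
  dev_go k a

theorem Eqv.refl (x : σ.S × ℝ) : σ.Eqv x x := ⟨[], σ.p1 _, trivial, rfl⟩

theorem Eqv.symm {x y : σ.S × ℝ} (h : σ.Eqv x y) : σ.Eqv y x := by
  obtain ⟨p, h1, h2, h3⟩ := h
  have := (def_rev h2).1
  rw [go_eq h1, h3] at this
  exact ⟨rev p, σ.p2 h1, this, by rw [← h3, dev_hol_rev]⟩

theorem Eqv.trans {x y z : σ.S × ℝ} (h : σ.Eqv x y) (k : σ.Eqv y z) : σ.Eqv x z := by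
  obtain ⟨p, h1, h2, h3⟩ := h
  obtain ⟨q, k1, k2, k3⟩ := k
  have d : X.Def D (σ.b x.1, x.2) (p ++ q) := def_append.2 ⟨h2, by rwa [go_eq h1, h3]⟩
  exact ⟨p ++ q, σ.p3 h1 k1 d, d, by rw [dev_hol_append, h3, k3]⟩

theorem lt_right {x y z : σ.S × ℝ} (h : TransGen σ.Stp x y) (k : σ.Eqv y z) :
    TransGen σ.Stp x z := by
  obtain ⟨w, h1, n, a, a', h2, h3, h4⟩ := TransGen.tail'_iff.1 h
  exact TransGen.tail' h1 ⟨n, a, a', h2, h3, h4.trans k⟩

/-- words from old copies to the new copy -/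
inductive Q (σ : Pre X D H) (n0 : σ.S) (l : W × Bool) : σ.S → List (W × Bool) → Prop
  | base : Q σ n0 l n0 [l]
  | mul {k k' p q a} : Q σ n0 l k q → σ.P k' k p → X.Def D (σ.b k', a) (p ++ q) →
      Q σ n0 l k' (p ++ q)
  | hom {k q q' a} : Q σ n0 l k q → H (σ.b k, a) q q' → Q σ n0 l k q'

/-- standing hypotheses -/
structure Ok (X : Sys B W) (D : W → Set ℝ)
    (H : B × ℝ → List (W × Bool) → List (W × Bool) → Prop) : Prop where
  c : X.Cong D H
  aon : X.AON D H
  oc : ∀ w, (D w).OrdConnected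
  ne : ∀ w, (D w).Nonempty

theorem Ok.one (ok : Ok X D H) (l : W × Bool) : ∃ a, X.Def D (X.s l, a) [l] := by
  obtain ⟨d, hd⟩ := ok.ne l.1
  rcases l with ⟨w, _ | _⟩
  · exact ⟨X.m w d, rfl, by simpa [al] using hd, trivial⟩
  · exact ⟨d, rfl, hd, trivial⟩

section ext
variable (ok : Ok X D H) {n0 : σ.S} {l : W × Bool} (hl : X.s l = σ.b n0)
include ok hl

theorem q0 {k q} (h : Q σ n0 l k q) :
    ∃ a, X.Def D (σ.b k, a) q ∧ (X.go (σ.b k, a) q).1 = X.t l := by
  induction h with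
  | base => obtain ⟨a, ha⟩ := ok.one l; exact ⟨a, hl ▸ ha, rfl⟩
  | @mul k k' p q a _ hp hd ih =>
    obtain ⟨a', -, e⟩ := ih
    exact ⟨a, hd, by rw [go_append, go_eq hp, dev_go e]⟩
  | @hom k q q' a _ hh ih =>
    obtain ⟨a', -, e⟩ := ih
    exact ⟨a, ok.c.dfr hh, by rw [← ok.c.go_eq hh, dev_go e]⟩

theorem q_go {k q} (h : Q σ n0 l k q) (a : ℝ) : X.go (σ.b k, a) q = (X.t l, X.hol q a) :=
  let ⟨_, _, e⟩ := q0 ok hl h
  dev_go e a

theorem q_back {k q} (h : Q σ n0 l k q) (a : ℝ) :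
    X.go (X.t l, a) (rev q) = (σ.b k, X.hol (rev q) a) := by
  obtain ⟨a', d, -⟩ := q0 ok hl h
  have := (def_rev d).2
  rw [q_go ok hl h] at this
  exact dev_go (congrArg Prod.fst this) a

theorem q_back' {k q} (h : Q σ n0 l k (rev q)) (a : ℝ) :
    X.go (X.t l, a) q = (σ.b k, X.hol q a) := by
  simpa using q_back ok hl h a

theorem q_fw {k q a} (h : Q σ n0 l k q) (d : X.Def D (σ.b k, a) q) :
    X.Def D (X.t l, X.hol q a) (rev q) := by
  have := (def_rev d).1
  rwa [q_go ok hl h] at this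

theorem q_bw {k q a} (h : Q σ n0 l k q) (d : X.Def D (X.t l, a) (rev q)) :
    X.Def D (σ.b k, X.hol (rev q) a) q := by
  have := (def_rev d).1
  rwa [q_back ok hl h, rev_rev] at this

omit ok hl in
/-- partial lifts of the new carrier -/
abbrev It (σ : Pre X D H) (n0 : σ.S) (l : W × Bool) : Type u :=
  {i : σ.S × List (W × Bool) // Q σ n0 l i.1 i.2}

omit ok hl in
def JJ (i : It σ n0 l) : Set ℝ := {a | X.Def D (X.t l, a) (rev i.1.2)}

omit ok hl in
def RR (i j : It σ n0 l) : Prop := σ.P i.1.1 j.1.1 (i.1.2 ++ rev j.1.2)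

omit ok hl in
def pt (i : It σ n0 l) (a : ℝ) : σ.S × ℝ := (i.1.1, X.hol (rev i.1.2) a)

theorem jj_def {i j : It σ n0 l} {a} (hi : a ∈ JJ i) (hj : a ∈ JJ j) :
    X.Def D (σ.b i.1.1, X.hol (rev i.1.2) a) (i.1.2 ++ rev j.1.2) :=
  def_append.2 ⟨q_bw ok hl i.2 hi, by rw [q_go ok hl i.2, dev_hol_rev']; exact hj⟩

theorem hel : Hel (JJ (σ := σ) (n0 := n0) (l := l)) RR where
  oc i := dev_oc ok.oc _ _
  refl i := by
    obtain ⟨a, d, -⟩ := q0 ok hl i.2
    exact σ.p4 (σ.p1 _) (ok.c.symm (ok.c.mul_rev d))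
  symm h := by simpa [RR] using σ.p2 h
  ne := by
    intro i j h
    obtain ⟨a, d, -⟩ := σ.p0 h
    rw [def_append, q_go ok hl i.2] at d
    exact ⟨_, q_fw ok hl i.2 d.1, d.2⟩
  tr := by
    intro i j k a r1 r2 hi hj hk
    have d1 := jj_def ok hl hi hj
    have d2 := jj_def ok hl hj hk
    have e : X.go (σ.b i.1.1, X.hol (rev i.1.2) a) i.1.2 = (X.t l, a) := by
      rw [q_go ok hl i.2, dev_hol_rev']
    have k1 : H (X.t l, a) (rev j.1.2 ++ j.1.2) [] := by
      have := ok.c.rev_mul (q_bw ok hl j.2 hj)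
      rwa [q_go ok hl j.2, dev_hol_rev'] at this
    have k2 := ok.c.app_l (q_bw ok hl i.2 hi)
      (e ▸ ok.c.app_r k1 (by rw [ok.c.go_eq k1]; exact hk))
    refine σ.p4 (σ.p3 r1 r2 (a := X.hol (rev i.1.2) a) ?_) (by simpa using k2)
    simpa using ok.c.dfl k2

theorem chain {k q} (h : Q σ n0 l k q) :
    ReflTransGen RR (⟨(n0, [l]), .base⟩ : It σ n0 l) ⟨(k, q), h⟩ := by
  induction h with
  | base => exact .refl
  | @mul k k' p q a hq hp hd ih =>
    refine ih.tail ((hel ok hl).symm ?_)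
    have d := def_append.1 hd
    have := ok.c.app_l d.1 (ok.c.mul_rev d.2)
    exact σ.p4 hp (by simpa using ok.c.symm this)
  | @hom k q q' a hq hh ih =>
    refine ih.tail ((hel ok hl).symm ?_)
    exact σ.p4 (σ.p1 _) (ok.c.symm (ok.c.to_mul_rev (ok.c.symm hh)))

theorem tri (i j : It σ n0 l) {u a} (hu : u ∈ JJ i) (ha : a ∈ JJ j) :
    (u < a → TransGen (HSt JJ RR) (i, u) (j, a)) ∧ (u = a → RR i j) ∧
      (a < u → TransGen (HSt JJ RR) (j, a) (i, u)) := by
  refine (hel ok hl).tri ?_ hu a ha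
  have s : ∀ {i j : It σ n0 l}, ReflTransGen RR i j → ReflTransGen RR j i := fun h => by
    induction h with
    | refl => exact .refl
    | tail _ r ih => exact ih.head ((hel ok hl).symm r)
  exact (s (chain ok hl i.2)).trans (chain ok hl j.2)

theorem eqv_pt {i j : It σ n0 l} {a} (r : RR i j) (hi : a ∈ JJ i) (hj : a ∈ JJ j) :
    σ.Eqv (pt i a) (pt j a) :=
  ⟨_, r, jj_def ok hl hi hj, by simp only [pt]; rw [dev_hol_append, dev_hol_rev']⟩

theorem up_pt {x y : It σ n0 l × ℝ} (h : TransGen (HSt JJ RR) x y) :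
    TransGen σ.Stp (pt x.1 x.2) (pt y.1 y.2) := by
  have one : ∀ {x y : It σ n0 l × ℝ}, HSt JJ RR x y → σ.Stp (pt x.1 x.2) (pt y.1 y.2) := by
    rintro x y ⟨lt, c, k1, k2, k3, k4, k5, k6⟩
    exact ⟨c.1.1, _, _, eqv_pt ok hl k1 k3 k4, (X.hol _).strictMono lt, eqv_pt ok hl k2 k5 k6⟩
  induction h with
  | single h => exact .single (one h)
  | tail _ h ih => exact ih.tail (one h)

theorem key {k q k' q' a} (h : Q σ n0 l k q) (h' : Q σ n0 l k' q')
    (d : X.Def D (X.t l, a) (rev q)) (d' : X.Def D (X.t l, a) (rev q')) :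
    σ.P k k' (q ++ rev q') :=
  (tri ok hl ⟨(k, q), h⟩ ⟨(k', q'), h'⟩ d d').2.1 rfl

theorem q5 (nc : σ.NC) {k q q' a} (h : Q σ n0 l k q) (h' : Q σ n0 l k q')
    (d : X.Def D (σ.b k, a) q) (d' : X.Def D (σ.b k, a) q') : H (σ.b k, a) q q' := by
  obtain ⟨t1, t2, t3⟩ := tri ok hl ⟨(k, q), h⟩ ⟨(k, q'), h'⟩ (q_fw ok hl h d) (q_fw ok hl h' d')
  rcases lt_trichotomy (X.hol q a) (X.hol q' a) with e | e | e
  · have := up_pt ok hl (t1 e)
    simp only [pt, dev_hol_rev] at this
    exact absurd this (nc _)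
  · have g : X.go (σ.b k, a) q = X.go (σ.b k, a) q' := by rw [q_go ok hl h, q_go ok hl h', e]
    exact ok.c.of_mul_rev d' (σ.p5 (t2 e) (σ.p1 _)
      (def_append.2 ⟨d, g ▸ (def_rev d').1⟩) trivial) g
  · have := up_pt ok hl (t3 e)
    simp only [pt, dev_hol_rev] at this
    exact absurd this (nc _)

omit ok hl in
def eP (σ : Pre X D H) (n0 : σ.S) (l : W × Bool) : Option σ.S → Option σ.S →
    List (W × Bool) → Prop
  | some n, some m, p => σ.P n m p
  | some k, none, p => Q σ n0 l k p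
  | none, some k, p => Q σ n0 l k (rev p)
  | none, none, p => ∃ a, H (X.t l, a) p []

omit hl in
theorem nul {b a a' p} (h : H (b, a) p []) (d : X.Def D (b, a') p) : H (b, a') p [] :=
  ok.aon _ _ _ _ _ h d trivial

/-- one more copy -/
def ext (nc : σ.NC) : Pre X D H where
  S := Option σ.S
  b x := x.elim (X.t l) σ.b
  P := eP σ n0 l
  p0 := by
    rintro (_ | n) (_ | m) p h
    · obtain ⟨a, h⟩ := h
      exact ⟨a, ok.c.dfl h, congrArg Prod.fst (ok.c.go_eq h)⟩
    · obtain ⟨a, d, -⟩ := q0 ok hl h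
      exact ⟨_, by simpa using q_fw ok hl h d, congrArg Prod.fst (q_back' ok hl h _)⟩
    · exact q0 ok hl h
    · exact σ.p0 h
  p1 := by
    rintro (_ | n)
    · exact ⟨0, ok.c.refl trivial⟩
    · exact σ.p1 n
  p2 := by
    rintro (_ | n) (_ | m) p h
    · obtain ⟨a, h⟩ := h
      have := ok.c.rev h
      rw [ok.c.go_eq h] at this
      exact ⟨a, this⟩
    · exact h
    · show Q σ n0 l n (rev (rev p))
      rwa [rev_rev]
    · exact σ.p2 h
  p3 := by
    rintro (_ | n) (_ | m) (_ | k) p q a h h' d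
    · obtain ⟨a1, h⟩ := h
      obtain ⟨a2, h'⟩ := h'
      change X.Def D (X.t l, a) _ at d
      have d' := def_append.1 d
      have k1 := nul ok h d'.1
      rw [ok.c.go_eq k1] at d'
      exact ⟨a, ok.c.app k1 (by rw [ok.c.go_eq k1]; exact nul ok h' d'.2)⟩
    · obtain ⟨a1, h⟩ := h
      have d' := def_append.1 d
      have k1 := ok.c.rev (ok.c.symm (ok.c.app_r (nul ok h d'.1) d'.2))
      rw [List.nil_append, q_back' ok hl h'] at k1
      exact Q.hom h' k1
    · have d' := def_append.1 d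
      have e := q_back' ok hl h a
      have d1 := (def_rev d'.1).1
      refine ⟨a, ok.c.trans (ok.c.app_l d'.1 ?_) (ok.c.mul_rev d'.1)⟩
      change X.Def D (X.t l, a) p ∧ X.Def D (X.go (X.t l, a) p) q at d'
      change X.Def D (X.go (X.t l, a) p) _ at d1
      rw [e] at d' d1 ⊢
      exact q5 ok hl nc h' h d'.2 d1
    · have d1 := (def_rev d).1
      change X.Def D (X.go (X.t l, a) _) _ at d1
      rw [go_append, q_back' ok hl h, go_eq h', rev_append] at d1
      show Q σ n0 l k (rev (p ++ q))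
      rw [rev_append]
      exact Q.mul h (σ.p2 h') d1
    · obtain ⟨a1, h'⟩ := h'
      have d' := def_append.1 d
      have k1 : H (X.go (σ.b n, a) p) q [] := by
        have d2 : X.Def D (X.go (σ.b n, a) p) q := d'.2
        rw [q_go ok hl h] at d2 ⊢
        exact nul ok h' d2
      exact Q.hom h (by simpa using ok.c.symm (ok.c.app_l d'.1 k1))
    · have d' := def_append.1 d
      have d2 : X.Def D (X.go (σ.b n, a) p) q := d'.2
      rw [q_go ok hl h] at d2
      have := key ok hl h h' (q_fw ok hl h d'.1) (by simpa using d2)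
      rwa [rev_rev] at this
    · exact Q.mul h' h d
    · exact σ.p3 h h' d
  p4 := by
    rintro (_ | n) (_ | m) p q a h k
    · obtain ⟨a1, h⟩ := h
      exact ⟨a, ok.c.trans (ok.c.symm k) (nul ok h (ok.c.dfl k))⟩
    · have k1 := ok.c.rev k
      change H (X.go (X.t l, a) p) _ _ at k1
      rw [q_back' ok hl h] at k1
      exact Q.hom h k1
    · exact Q.hom h k
    · exact σ.p4 h k
  p5 := by
    rintro (_ | n) (_ | m) p q a h h' d d'
    · obtain ⟨a1, h⟩ := h
      obtain ⟨a2, h'⟩ := h'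
      exact ok.c.trans (nul ok h d) (ok.c.symm (nul ok h' d'))
    · change X.Def D (X.t l, a) _ at d d'
      have k1 := key ok hl h h' (by simpa using d) (by simpa using d')
      rw [rev_rev] at k1
      have d1 : X.Def D (X.go (X.t l, a) p) (rev p ++ q) :=
        def_append.2 ⟨(def_rev d).1, by rwa [(def_rev d).2]⟩
      have k2 : H (X.go (X.t l, a) p) (rev p ++ q) [] := by
        rw [q_back' ok hl h] at d1 ⊢
        exact σ.p5 k1 (σ.p1 _) d1 trivial
      have k3 := ok.c.app_l d k2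
      have k4 := ok.c.app_r (ok.c.mul_rev d) (r := q) (by rw [ok.c.go_eq (ok.c.mul_rev d)]; exact d')
      simp only [List.append_nil, List.nil_append, List.append_assoc] at k3 k4
      exact ok.c.trans (ok.c.symm k3) k4
    · exact q5 ok hl nc h h' d d'
    · exact σ.p5 h h' d d'

theorem ext_nc (nc : σ.NC) : (ext ok hl nc).NC := by
  classical
  set τ := ext ok hl nc with hτ
  let U : Set ℝ := {a | ∃ i : It σ n0 l, a ∈ JJ i}
  have conv : ∀ {u a v}, u ∈ U → a ∈ U → u ≤ v → v ≤ a → v ∈ U := by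
    rintro u a v ⟨i, hi⟩ ⟨j, hj⟩ h1 h2
    rcases (h1.trans h2).eq_or_lt with e | e
    · exact ⟨i, by rwa [← le_antisymm h1 (e ▸ h2)]⟩
    · exact (hel ok hl).cover ((tri ok hl i j hi hj).1 e) h1 h2
  obtain ⟨u0, hu0⟩ : U.Nonempty := by
    obtain ⟨a, d, -⟩ := q0 ok hl (Q.base (σ := σ) (n0 := n0) (l := l))
    exact ⟨_, ⟨(n0, [l]), .base⟩, q_fw ok hl .base d⟩
  let Rep : τ.S × ℝ → σ.S × ℝ → Prop := fun x x0 => τ.Eqv x (some x0.1, x0.2)
  let v : τ.S × ℝ → ℝ := fun x => if ∃ x0, Rep x x0 then u0 else x.2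
  have rr : ∀ {x x0 x1}, Rep x x0 → Rep x x1 → σ.Eqv x0 x1 := fun h k => h.symm.trans k
  have rp : ∀ (i : It σ n0 l) a, a ∈ JJ i → Rep (none, a) (pt i a) := fun i a h =>
    ⟨rev i.1.2, by show Q σ n0 l _ (rev (rev _)); rw [rev_rev]; exact i.2, h, rfl⟩
  have ru : ∀ a, (∃ x0, Rep (none, a) x0) ↔ a ∈ U := fun a =>
    ⟨fun ⟨x0, p, h1, h2, _⟩ => ⟨⟨(x0.1, rev p), h1⟩, by
      show X.Def D _ (rev (rev p)); rw [rev_rev]; exact h2⟩,
      fun ⟨i, h⟩ => ⟨_, rp i a h⟩⟩
  have ve : ∀ {x y}, τ.Eqv x y → v x = v y := by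
    intro x y h
    by_cases k : ∃ x0, Rep x x0
    · obtain ⟨x0, k⟩ := k
      simp only [v]
      rw [if_pos ⟨x0, k⟩, if_pos ⟨x0, h.symm.trans k⟩]
    · have k' : ¬ ∃ x0, Rep y x0 := fun ⟨x0, k'⟩ => k ⟨x0, h.trans k'⟩
      simp only [v]
      rw [if_neg k, if_neg k']
      obtain ⟨_ | n, a⟩ := x
      · obtain ⟨_ | m, a'⟩ := y
        · obtain ⟨p, ⟨a1, h1⟩, h2, h3⟩ := h
          have := congrArg Prod.snd (ok.c.go_eq (nul ok h1 h2))
          rw [go_snd] at this
          exact this.symm.trans h3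
        · exact absurd ⟨(m, a'), Eqv.refl _⟩ k'
      · exact absurd ⟨(n, a), Eqv.refl _⟩ k
  have vr : ∀ {x x0}, Rep x x0 → v x = u0 := fun h => if_pos ⟨_, h⟩
  have main : ∀ {x y}, TransGen τ.Stp x y →
      v x < v y ∨ ∃ x0 y0, Rep x x0 ∧ Rep y y0 ∧ TransGen σ.Stp x0 y0 := by
    have one : ∀ {x y}, τ.Stp x y →
        v x < v y ∨ ∃ x0 y0, Rep x x0 ∧ Rep y y0 ∧ TransGen σ.Stp x0 y0 := by
      rintro x y ⟨_ | n, a, a', h1, lt, h2⟩
      · by_cases k : a ∈ U ∧ a' ∈ U
        · obtain ⟨⟨i, hi⟩, ⟨j, hj⟩⟩ := k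
          exact .inr ⟨_, _, h1.trans (rp i a hi), h2.symm.trans (rp j a' hj),
            up_pt ok hl ((tri ok hl i j hi hj).1 lt)⟩
        · left
          rw [ve h1, ← ve h2]
          simp only [v, ru]
          split_ifs with k1 k2 k2
          · exact absurd ⟨k1, k2⟩ k
          · exact not_le.1 fun e => k2 (conv k1 hu0 lt.le e)
          · exact not_le.1 fun e => k1 (conv hu0 k2 e lt.le)
          · exact lt
      · exact .inr ⟨(n, a), (n, a'), h1, h2.symm, .single ⟨n, a, a', .refl _, lt, .refl _⟩⟩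
    intro x y h
    induction h with
    | single h => exact one h
    | tail _ h ih =>
      rcases ih with i | ⟨x0, y0, i1, i2, i3⟩ <;> rcases one h with j | ⟨y1, z0, j1, j2, j3⟩
      · exact .inl (i.trans j)
      · exact .inl (by rwa [vr j2, ← vr j1])
      · exact .inl (by rwa [vr i1, ← vr i2])
      · exact .inr ⟨x0, z0, i1, j2, (lt_right i3 (rr i2 j1)).trans j3⟩
  intro x h
  rcases main h with k | ⟨x0, y0, k1, k2, k3⟩
  · exact lt_irrefl _ k
  · exact nc _ (lt_right k3 (rr k2 k1))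

end ext

/-- lifting a word letter by letter -/
def Lift (σ : Pre X D H) : σ.S → List (W × Bool) → σ.S → Prop
  | n, [], m => σ.P n m []
  | n, l :: p, m => ∃ n', σ.P n n' [l] ∧ Lift σ n' p m

theorem b_eq {n m} (h : σ.P n m []) : σ.b n = σ.b m := congrArg Prod.fst (go_eq h 0)

theorem nil_trans {n m k p} (h : σ.P n m []) (h' : σ.P m k p) : σ.P n k p := by
  obtain ⟨a, d, -⟩ := σ.p0 h'
  exact σ.p3 (a := a) h h' (by rwa [b_eq h])

theorem Lift.left {n n' m p} (h : σ.P n n' []) (k : σ.Lift n' p m) : σ.Lift n p m := by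
  cases p with
  | nil => exact nil_trans h k
  | cons l p => obtain ⟨n1, k1, k2⟩ := k; exact ⟨n1, nil_trans h k1, k2⟩

theorem Lift.uniq (c : X.Cong D H) {n m m' p} (h : σ.Lift n p m) (k : σ.Lift n p m') :
    σ.P m m' [] := by
  induction p generalizing n with
  | nil => exact nil_trans (σ.p2 h) k
  | cons l p ih =>
    obtain ⟨n1, h1, h2⟩ := h
    obtain ⟨n2, k1, k2⟩ := k
    obtain ⟨a, d, -⟩ := σ.p0 h1
    have e := c.rev_mul d
    rw [go_eq h1] at e
    exact ih h2 (k2.left (σ.p4 (σ.p3 (σ.p2 h1) k1 (c.dfl e)) e))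

theorem lift_append {n m p q} : σ.Lift n (p ++ q) m ↔ ∃ k, σ.Lift n p k ∧ σ.Lift k q m := by
  induction p generalizing n with
  | nil => exact ⟨fun h => ⟨n, σ.p1 n, h⟩, fun ⟨k, h1, h2⟩ => h2.left h1⟩
  | cons l p ih =>
    constructor
    · rintro ⟨n1, h1, h2⟩
      obtain ⟨k, h3, h4⟩ := ih.1 h2
      exact ⟨k, ⟨n1, h1, h3⟩, h4⟩
    · rintro ⟨k, ⟨n1, h1, h3⟩, h4⟩
      exact ⟨n1, h1, ih.2 ⟨k, h3, h4⟩⟩

theorem Lift.glue {n m p a} (h : σ.Lift n p m) (d : X.Def D (σ.b n, a) p) : σ.P n m p := by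
  induction p generalizing n a with
  | nil => exact h
  | cons l p ih =>
    obtain ⟨n1, h1, h2⟩ := h
    have d2 : X.Def D (X.go (σ.b n, a) [l]) p := d.2.2
    rw [go_eq h1] at d2
    exact σ.p3 (p := [l]) h1 (ih h2 d2) d

theorem Lift.cmp {n m p} (h : σ.Lift n p m) :
    X.flat.Def (fun _ => univ) (σ.b n, 0) p ∧ X.flat.go (σ.b n, 0) p = (σ.b m, 0) := by
  induction p generalizing n with
  | nil => exact ⟨trivial, by rw [b_eq h]; rfl⟩
  | cons l p ih =>
    obtain ⟨n1, h1, h2⟩ := h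
    obtain ⟨a, d, e⟩ := σ.p0 h1
    have : X.flat.step (σ.b n, 0) l = (σ.b n1, 0) := by
      refine Prod.ext e ?_
      rcases l with ⟨w, _ | _⟩ <;> rfl
    exact ⟨⟨d.1, trivial, this ▸ (ih h2).1⟩, by rw [go_cons, this, (ih h2).2]⟩

/-- conservative extension -/
structure Emb (σ τ : Pre X D H) (ι : σ.S → τ.S) : Prop where
  b : ∀ n, τ.b (ι n) = σ.b n
  P : ∀ n m p, τ.P (ι n) (ι m) p ↔ σ.P n m p

theorem Lift.map {τ : Pre X D H} {ι} (e : Emb σ τ ι) {n m p} (h : σ.Lift n p m) :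
    τ.Lift (ι n) p (ι m) := by
  induction p generalizing n with
  | nil => exact (e.P _ _ _).2 h
  | cons l p ih => obtain ⟨n1, h1, h2⟩ := h; exact ⟨ι n1, (e.P _ _ _).2 h1, ih h2⟩

theorem exists_lift (ok : Ok X D H) {p : List (W × Bool)} : ∀ {σ : Pre X D H} (_ : σ.NC) {n a},
    X.flat.Def (fun _ => univ) (σ.b n, a) p →
    ∃ (τ : Pre X D H) (ι : σ.S → τ.S), τ.NC ∧ Emb σ τ ι ∧ ∃ m, τ.Lift (ι n) p m := by
  induction p with
  | nil => exact fun nc n _ _ => ⟨_, id, nc, ⟨fun _ => rfl, fun _ _ _ => Iff.rfl⟩, n, Pre.p1 _ n⟩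
  | cons l p ih =>
    intro σ nc n a d
    obtain ⟨τ, ι, h1, h2, m, h3⟩ := ih (ext_nc ok (n0 := n) (l := l) d.1 nc) (n := none) d.2.2
    exact ⟨τ, fun k => ι (some k), h1, ⟨fun k => h2.b (some k), fun k k' q => h2.P _ _ _⟩, m,
      ι none, (h2.P (some n) none [l]).2 Q.base, h3⟩

theorem inv (ok : Ok X D H) {K : Cells B W C} (triv : ∀ c, ∃ a, H (K.base c, a) (K.word c) [])
    {b0 : B} {p q} (h : EqvGen (X.flat.Mv (fun _ => univ) K (fun _ => univ) (b0, 0)) p q) :
    (X.flat.Def (fun _ => univ) (b0, 0) p ↔ X.flat.Def (fun _ => univ) (b0, 0) q) ∧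
    ∀ (σ : Pre X D H), σ.NC → ∀ n m m', σ.b n = b0 → σ.Lift n p m → σ.Lift n q m' →
      σ.P m m' [] := by
  have cv : X.flat.CV (fun _ => univ) K (fun _ => univ) := by
    have fl : ∀ (p : List (W × Bool)) (x : B × ℝ) a', X.Def D x p →
        X.flat.Def (fun _ => univ) (x.1, a') p ∧ X.flat.go (x.1, a') p = ((X.go x p).1, a') := by
      intro p
      induction p with
      | nil => exact fun _ _ _ => ⟨trivial, rfl⟩
      | cons l p ih =>
        intro x a' d
        have : X.flat.step (x.1, a') l = ((X.step x l).1, a') := by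
          rcases l with ⟨w, _ | _⟩ <;> rfl
        exact ⟨⟨d.1, trivial, this ▸ (ih _ a' d.2.2).1⟩, by rw [go_cons, this, (ih _ a' d.2.2).2]; rfl⟩
    intro c a' _
    obtain ⟨a, k⟩ := triv c
    have := fl _ _ a' (ok.c.dfl k)
    rwa [ok.c.go_eq k] at this
  refine ⟨(eqv_spec cv h).1, ?_⟩
  induction h with
  | rel p q h =>
    obtain ⟨-, p1, r, p2, rfl, rfl, hr⟩ := h
    intro σ _ n m m' e h1 h2
    obtain ⟨k2, h1, h4⟩ := lift_append.1 h1
    obtain ⟨k1, h1, h3⟩ := lift_append.1 h1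
    obtain ⟨k1', h2, h5⟩ := lift_append.1 h2
    rw [← e, h1.cmp.2] at hr
    have : ∃ a, H (σ.b k1, a) r [] := by
      rcases hr with ⟨l, rfl⟩ | ⟨c, c1, -, rfl⟩
      · obtain ⟨a, d⟩ := ok.one l
        have e' : X.s l = σ.b k1 := h3.cmp.1.1
        exact ⟨a, e' ▸ ok.c.cancel d⟩
      · have c1' : σ.b k1 = K.base c := c1
        rw [c1']
        exact triv c
    obtain ⟨a, k⟩ := this
    have k' := σ.p2 (σ.p4 (h3.glue (ok.c.dfl k)) k)
    exact h4.uniq ok.c (h5.left (nil_trans k' (h1.uniq ok.c h2)))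
  | refl => exact fun σ _ n m m' _ h1 h2 => h1.uniq ok.c h2
  | symm _ _ _ ih => exact fun σ nc n m m' e h1 h2 => σ.p2 (ih σ nc n m' m e h2 h1)
  | trans p q r h _ i j =>
    intro σ nc n m m' e h1 h2
    obtain ⟨τ, ι, nc', em, k, h3⟩ := exists_lift ok nc (n := n) (a := 0)
      (by rw [e]; exact (eqv_spec cv h).1.1 (e ▸ h1.cmp.1))
    have e' := (em.b n).trans e
    exact (em.P _ _ _).1 (nil_trans (i τ nc' _ _ _ e' (h1.map em) h3)
      (j τ nc' _ _ _ e' h3 (h2.map em)))

/-- one copy -/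
def init (ok : Ok X D H) (b0 : B) : Pre X D H where
  S := PUnit
  b _ := b0
  P _ _ p := ∃ a, H (b0, a) p []
  p0 := fun ⟨a, h⟩ => ⟨a, ok.c.dfl h, congrArg Prod.fst (ok.c.go_eq h)⟩
  p1 _ := ⟨0, ok.c.refl trivial⟩
  p2 := fun ⟨a, h⟩ => ⟨a, by have := ok.c.rev h; rwa [ok.c.go_eq h] at this⟩
  p3 := by
    rintro - - - p q a ⟨a1, h⟩ ⟨a2, h'⟩ d
    have d' := def_append.1 d
    have k1 := nul ok h d'.1
    rw [ok.c.go_eq k1] at d'
    exact ⟨a, ok.c.app k1 (by rw [ok.c.go_eq k1]; exact nul ok h' d'.2)⟩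
  p4 := fun ⟨_, h⟩ k => ⟨_, ok.c.trans (ok.c.symm k) (nul ok h (ok.c.dfl k))⟩
  p5 := fun ⟨_, h⟩ ⟨_, h'⟩ d d' => ok.c.trans (nul ok h d) (ok.c.symm (nul ok h' d'))

theorem init_nc (ok : Ok X D H) (b0 : B) : (init ok b0).NC := by
  have e : ∀ {x y}, (init ok b0).Eqv x y → x.2 = y.2 := by
    rintro x y ⟨p, ⟨a, h1⟩, h2, h3⟩
    have := congrArg Prod.snd (ok.c.go_eq (nul ok h1 h2))
    rw [go_snd] at this
    exact this.symm.trans h3
  have : ∀ {x y}, TransGen (init ok b0).Stp x y → x.2 < y.2 := by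
    intro x y h
    induction h with
    | single h => obtain ⟨n, a, a', h1, l, h2⟩ := h; exact (e h1).trans_lt (l.trans_eq (e h2))
    | tail _ h ih =>
      obtain ⟨n, a, a', h1, l, h2⟩ := h; exact ih.trans ((e h1).trans_lt (l.trans_eq (e h2)))
  exact fun x h => lt_irrefl _ (this h)

end Pre

open Pre in
/-- DEVELOP -/
theorem develop (ok : Pre.Ok X D H) {K : Cells B W C}
    (triv : ∀ c, ∃ a, H (K.base c, a) (K.word c) [])
    (sc : ∀ b p, X.flat.Def (fun _ => univ) (b, 0) p → X.flat.go (b, 0) p = (b, 0) →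
      X.flat.Hd (fun _ => univ) K (fun _ => univ) (b, 0) p [])
    {b : B} {a : ℝ} {p} (d : X.Def D (b, a) p) (e : (X.go (b, a) p).1 = b) : H (b, a) p [] := by
  have fl : ∀ (p : List (W × Bool)) (x : B × ℝ), X.Def D x p →
      X.flat.Def (fun _ => univ) (x.1, 0) p ∧ X.flat.go (x.1, 0) p = ((X.go x p).1, 0) := by
    intro p
    induction p with
    | nil => exact fun _ _ => ⟨trivial, rfl⟩
    | cons l p ih =>
      intro x d
      have : X.flat.step (x.1, 0) l = ((X.step x l).1, 0) := by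
        rcases l with ⟨w, _ | _⟩ <;> rfl
      exact ⟨⟨d.1, trivial, this ▸ (ih _ d.2.2).1⟩, by rw [go_cons, this, (ih _ d.2.2).2]; rfl⟩
  obtain ⟨f1, f2⟩ := fl p _ d
  rw [e] at f2
  obtain ⟨τ, ι, nc, em, m, h⟩ := exists_lift ok (init_nc ok b) (n := PUnit.unit) (a := 0) f1
  have eb : τ.b (ι PUnit.unit) = b := em.b _
  have k := (inv ok triv (sc b p f1 f2).2).2 τ nc _ m _ eb h (τ.p1 _)
  have k1 : τ.P (ι PUnit.unit) (ι PUnit.unit) (p ++ []) :=
    τ.p3 (a := a) (h.glue (a := a) (by rwa [eb])) k (by rwa [eb, List.append_nil])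
  rw [List.append_nil] at k1
  have := τ.p5 (a := a) k1 (τ.p1 _) (by rwa [eb]) trivial
  rwa [eb] at this

end Pool.Agent.Work.MP_3d425c_gt.Nv
end

-- merged part: Pool.Agent.Work.MP_3d425c_gt.Nv.Aon
section
/-! Homotopy in the leaf passes to near levels and to limit levels. -/

namespace Pool.Agent.Work.MP_3d425c_gt.Nv
open Set Filter Topology Relation

universe u

namespace Sys
variable {B W C : Type u} {X : Sys B W} {D D' : W → Set ℝ} {K : Cells B W C} {E E' : C → Set ℝ}
  {F : ℝ → Filter ℝ}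

/-- `a ∈ S'` iff the points near `a` on the side `F` are in `S` -/
def FC2 (F : ℝ → Filter ℝ) (S S' : Set ℝ) : Prop :=
  ∀ a, (a ∈ S' → ∀ᶠ x in F a, x ∈ S) ∧ ((∃ᶠ x in F a, x ∈ S) → a ∈ S')

theorem aon_al (hF : Side F) (l : W × Bool) (a : ℝ) : Tendsto (X.al l) (F a) (F (X.al l a)) := by
  rcases l with ⟨w, _ | _⟩
  · exact hF.map (X.m w).symm a
  · exact tendsto_id

theorem FC2.near {S S' : Set ℝ} (h : FC2 F S S') {f : ℝ → ℝ} {a : ℝ}
    (hf : Tendsto f (F a) (F (f a))) : ∀ᶠ x in F a, f x ∈ S → f a ∈ S' := by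
  by_cases e : f a ∈ S'
  · exact Eventually.of_forall fun _ _ => e
  · have := mt (h _).2 e
    rw [not_frequently] at this
    exact (hf.eventually this).mono fun x hx k => absurd k hx

theorem aon_ev (hF : Side F) (hD : ∀ w, FC2 F (D w) (D' w)) {b a p} (h : X.Def D' (b, a) p) :
    ∀ᶠ x in F a, X.Def D (b, x) p := by
  induction p generalizing b a with
  | nil => exact Eventually.of_forall fun _ => trivial
  | cons l p ih =>
    filter_upwards [(aon_al (X := X) hF l a).eventually ((hD l.1 _).1 h.2.1),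
      (hF.map (X.mp l) a).eventually (ih h.2.2)] with x h1 h2
    exact ⟨h.1, h1, h2⟩

theorem aon_near (hF : Side F) (hD : ∀ w, FC2 F (D w) (D' w)) (b a p) :
    ∀ᶠ x in F a, X.Def D (b, x) p → X.Def D' (b, a) p := by
  induction p generalizing b a with
  | nil => exact Eventually.of_forall fun _ _ => trivial
  | cons l p ih =>
    filter_upwards [(hD l.1).near (aon_al (X := X) hF l a),
      (hF.map (X.mp l) a).eventually (ih (X.t l) (X.mp l a))] with x h1 h2 h
    exact ⟨h.1, h1 h.2.1, h2 h.2.2⟩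

theorem aon_go (hF : Side F) (b : B) (a : ℝ) (p q : List (W × Bool)) :
    ∀ᶠ x in F a, X.go (b, x) p = X.go (b, x) q → X.go (b, a) p = X.go (b, a) q := by
  by_cases e : X.hol p a = X.hol q a
  · refine Eventually.of_forall fun x h => Prod.ext ?_ (by rw [go_snd, go_snd]; exact e)
    rw [go_fst b a x, h, go_fst b x a]
  · have := (isOpen_ne_fun (X.hol p).continuous (X.hol q).continuous).mem_nhds e
    filter_upwards [hF.le a this] with x h1 h
    have h2 := congrArg Prod.snd h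
    rw [go_snd, go_snd] at h2
    exact absurd h2 h1

/-- OPEN -/
theorem aon_open (hF : Side F) (hD : ∀ w, FC2 F (D w) (D' w)) (hE : ∀ c, FC2 F (E c) (E' c))
    {b a p q} (h : X.Hd D' K E' (b, a) p q) : ∀ᶠ x in F a, X.Hd D K E (b, x) p q := by
  have : ∀ᶠ x in F a, EqvGen (X.Mv D K E (b, x)) p q := by
    obtain ⟨-, h⟩ := h
    induction h with
    | rel p q h =>
      obtain ⟨hd, p1, r, p2, e1, e2, hr⟩ := h
      have : ∀ᶠ x in F a, Rl K E (X.go (b, x) p1) r := by
        rcases hr with hr | ⟨c, h1, h2, h3⟩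
        · exact Eventually.of_forall fun _ => .inl hr
        · rw [go_snd] at h2
          filter_upwards [(hF.map (X.hol p1) a).eventually ((hE c _).1 h2)] with x hx
          exact .inr ⟨c, (go_fst b x a p1).trans h1, by rw [go_snd]; exact hx, h3⟩
      filter_upwards [this, aon_ev hF hD hd] with x h1 h2
      exact .rel _ _ ⟨h2, p1, r, p2, e1, e2, h1⟩
    | refl => exact Eventually.of_forall fun _ => .refl _
    | symm _ _ _ ih => exact ih.mono fun _ h => h.symm _ _
    | trans _ _ _ _ _ i j => exact (i.and j).mono fun _ h => h.1.trans _ _ _ h.2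
  exact ((aon_ev hF hD h.1).and this).mono fun _ h => h

theorem aon_fin (hC : X.CV D K E) (Γ : Type*) [Group Γ] {x p q} (h : X.Hd D K E x p q) :
    ∃ M : Finset {κ : C × ℝ // κ.2 ∈ E κ.1}, ∀ Ψ : W × ℝ → Γ, (∀ κ ∈ M, X.Kills K Ψ κ.1) →
      X.val Ψ x p = X.val Ψ x q := by
  classical
  obtain ⟨-, h⟩ := h
  induction h with
  | rel p q h =>
    obtain ⟨hd, p1, r, p2, rfl, rfl, hr⟩ := h
    rw [def_append, def_append] at hd
    have e := hr.closed hC hd.1.2
    rcases hr with ⟨l, rfl⟩ | ⟨c, h1, h2, rfl⟩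
    · exact ⟨∅, fun Ψ _ => by
        rw [val_append, val_append, val_back, mul_one, go_append, e, val_append]⟩
    · refine ⟨{⟨(c, (X.go x p1).2), h2⟩}, fun Ψ hΨ => ?_⟩
      have k : X.val Ψ (K.base c, (X.go x p1).2) (K.word c) = 1 :=
        hΨ _ (Finset.mem_singleton_self _)
      rw [← h1] at k
      rw [val_append, val_append, k, mul_one, go_append, e, val_append]
  | refl => exact ⟨∅, fun _ _ => rfl⟩
  | symm _ _ _ ih => exact ih.imp fun _ h Ψ k => (h Ψ k).symm
  | trans _ _ _ _ _ i j =>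
    obtain ⟨M, i⟩ := i
    obtain ⟨N, j⟩ := j
    exact ⟨M ∪ N, fun Ψ k => (i Ψ fun κ h => k κ (Finset.mem_union_left _ h)).trans
      (j Ψ fun κ h => k κ (Finset.mem_union_right _ h))⟩

theorem aon_flat {b a a' p} (h : X.Def D (b, a) p) : X.Def (fun _ => univ) (b, a') p := by
  induction p generalizing b a a' with
  | nil => trivial
  | cons l p ih => exact ⟨h.1, trivial, ih h.2.2⟩

theorem aon_words (hW : ∀ b, {w | X.src w = b ∨ X.tgt w = b}.Finite) (R : ℕ) (b : B) :
    {p : List (W × Bool) | p.length ≤ R ∧ X.Def (fun _ => univ) (b, 0) p}.Finite := by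
  induction R generalizing b with
  | zero =>
    refine (finite_singleton []).subset fun p hp => ?_
    exact List.eq_nil_of_length_eq_zero (Nat.le_zero.1 hp.1)
  | succ R ih =>
    have h1 : {l : W × Bool | X.s l = b}.Finite := by
      refine ((hW b).prod (finite_univ (α := Bool))).subset ?_
      rintro ⟨w, _ | _⟩ h
      · exact ⟨.inr h, trivial⟩
      · exact ⟨.inl h, trivial⟩
    refine ((h1.biUnion fun l _ => (ih (X.t l)).image (l :: ·)).insert []).subset ?_
    rintro (_ | ⟨l, p⟩) hp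
    · exact .inl rfl
    · exact .inr (mem_biUnion (t := fun l => (l :: ·) '' _) hp.2.1
        ⟨p, ⟨by simpa using hp.1, aon_flat hp.2.2.2⟩, rfl⟩)

/-- points reached by short valid words -/
def Rch (X : Sys B W) (D : W → Set ℝ) (x : B × ℝ) (k : ℕ) (y : B × ℝ) : Prop :=
  ∃ p, p.length ≤ k ∧ X.Def D x p ∧ X.go x p = y

theorem Rch.trans {x y z k n} (h : X.Rch D x k y) (h' : X.Rch D y n z) : X.Rch D x (k + n) z := by
  obtain ⟨p, h1, h2, rfl⟩ := h
  obtain ⟨q, h3, h4, rfl⟩ := h'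
  exact ⟨p ++ q, by rw [List.length_append]; omega, def_append.2 ⟨h2, h4⟩, go_append _ _ _⟩

theorem Rch.symm {x y k} (h : X.Rch D x k y) : X.Rch D y k x := by
  obtain ⟨p, h1, h2, rfl⟩ := h
  exact ⟨rev p, by simpa [rev] using h1, (def_rev h2).1, (def_rev h2).2⟩

theorem Rch.mono {x y k n} (h : X.Rch D x k y) (hk : k ≤ n) : X.Rch D x n y :=
  let ⟨p, h1, h2⟩ := h
  ⟨p, h1.trans hk, h2⟩

theorem aon_src {x : B × ℝ} {l : W × Bool} (h : X.s l = x.1) :
    (X.src l.1, X.al l x.2) = if l.2 = true then x else X.step x l := by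
  rcases l with ⟨w, _ | _⟩
  · rfl
  · exact Prod.ext h rfl

theorem aon_arc {x p} (h : X.Def D x p) {z : (W × ℝ) × Bool} (hz : z ∈ X.arcs x p) :
    z.1.2 ∈ D z.1.1 ∧ X.Rch D x p.length (X.src z.1.1, z.1.2) := by
  induction p generalizing x with
  | nil => exact absurd hz List.not_mem_nil
  | cons l p ih =>
    have one : X.Rch D x 1 (X.step x l) := ⟨[l], le_rfl, ⟨h.1, h.2.1, trivial⟩, rfl⟩
    rcases List.mem_cons.1 hz with rfl | hz
    · refine ⟨h.2.1, ?_⟩
      rw [aon_src h.1]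
      split_ifs
      · exact ⟨[], Nat.zero_le _, trivial, rfl⟩
      · exact one.mono (by simp)
    · exact ⟨(ih h.2.2 hz).1, (one.trans (ih h.2.2 hz).2).mono (by simp [add_comm])⟩

theorem aon_val {Γ : Type*} [Group Γ] (Ψ : W × ℝ → Γ) (x : B × ℝ) (p : List (W × Bool)) :
    X.val Ψ x p = ev Ψ (X.arcs x p) := by
  induction p generalizing x with
  | nil => simp [arcs]
  | cons l p ih => rw [val_cons, ih]; simp [arcs, lt1]

theorem aon_lift {A Γ : Type*} [Group Γ] {P : A → Prop} (Ψ : A → Γ) (w : List ({a // P a} × Bool)) :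
    ev (fun a => Ψ a.1) w = ev Ψ (w.map fun z => (z.1.1, z.2)) := by
  induction w with
  | nil => simp
  | cons z w ih => simp [ih, lt1]

theorem aon_sub {A : Type*} {P : A → Prop} (w : List (A × Bool)) (h : ∀ z ∈ w, P z.1) :
    ∃ w' : List ({a // P a} × Bool), w'.map (fun z => (z.1.1, z.2)) = w := by
  induction w with
  | nil => exact ⟨[], rfl⟩
  | cons z w ih =>
    obtain ⟨w', e⟩ := ih fun y hy => h y (List.mem_cons_of_mem _ hy)
    exact ⟨(⟨z.1, h z List.mem_cons_self⟩, z.2) :: w', by simp [e]⟩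

/-- CLOSED, in terms of labellings -/
theorem aon_closed_val (hF : Side F) (hE : ∀ c, FC2 F (E c) (E' c)) (hC : X.CV D K E)
    (S : Surf X D K E) {b a p q} (h : ∃ᶠ x in F a, X.Hd D K E (b, x) p q) {Γ : Type*} [Group Γ]
    (Ψ : W × ℝ → Γ) (hΨ : ∀ κ : C × ℝ, κ.2 ∈ E' κ.1 → X.Kills K Ψ κ) :
    X.val Ψ (b, a) p = X.val Ψ (b, a) q := by
  classical
  obtain ⟨N, hN⟩ := S.len
  obtain ⟨n, hn⟩ := exists_nat_ge (|S.Y| * (2 * ((p.length + q.length : ℕ) : ℝ)))
  set R := p.length + q.length + N + 2 * N * n + N with hR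
  have hW := aon_words S.finW R b
  have e1 := (hW.eventually_all (l := F a)).2 fun w _ => (hW.eventually_all (l := F a)).2
    fun w' _ => aon_go (X := X) hF b a w w'
  have e2 := (hW.eventually_all (l := F a)).2 fun w _ =>
    ((S.finC (X.go (b, a) w).1).eventually_all (l := F a)).2
      fun c _ => (hE c).near (hF.map (X.hol w) a)
  obtain ⟨u, hu, k1, k2⟩ := (h.and_eventually (e1.and e2)).exists
  have hp := hu.1
  have hq := (cong_hd hC).dfr hu
  let σ : B × ℝ → ℝ := fun y =>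
    if h : X.Rch D (b, u) R y then (X.go (b, a) h.choose).2 else 0
  have hσ : ∀ w, w.length ≤ R → X.Def D (b, u) w → σ (X.go (b, u) w) = (X.go (b, a) w).2 :=
    fun w h1 h2 => by
      have h3 : X.Rch D (b, u) R (X.go (b, u) w) := ⟨w, h1, h2, rfl⟩
      simp only [σ, dif_pos h3]
      rw [k1 _ ⟨h3.choose_spec.1, aon_flat h3.choose_spec.2.1⟩ w ⟨h1, aon_flat h2⟩
        h3.choose_spec.2.2]
  let Φ : W × ℝ → Γ := fun α => Ψ (α.1, σ (X.src α.1, α.2))
  have tr : ∀ r w : List (W × Bool), w.length + r.length ≤ R → X.Def D (b, u) w →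
      X.Def D (X.go (b, u) w) r → X.val Φ (X.go (b, u) w) r = X.val Ψ (X.go (b, a) w) r := by
    intro r
    induction r with
    | nil => intro w _ _ _; simp
    | cons l r ih =>
      intro w h1 h2 h3
      have h4 : X.Def D (b, u) (w ++ [l]) := def_append.2 ⟨h2, h3.1, h3.2.1, trivial⟩
      have h5 : (w ++ [l]).length + r.length ≤ R := by simp at h1 ⊢; omega
      have i := ih (w ++ [l]) h5 h4 (by rw [go_append]; exact h3.2.2)
      rw [go_append, go_append] at i
      have e : σ (X.src l.1, X.al l (X.go (b, u) w).2) = X.al l (X.go (b, a) w).2 := by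
        rw [aon_src h3.1]
        rcases l with ⟨l, _ | _⟩
        · have := hσ _ (by omega) h4
          rw [go_append, go_append] at this
          exact this
        · exact hσ w (by omega) h2
      rw [val_cons, val_cons]
      simp only [Φ, e]
      exact congrArg _ i
  obtain ⟨p', ep⟩ := aon_sub (P := fun α : W × ℝ => α.2 ∈ D α.1) _ fun z hz => (aon_arc hp hz).1
  obtain ⟨q', eq'⟩ := aon_sub (P := fun α : W × ℝ => α.2 ∈ D α.1) _ fun z hz => (aon_arc hq hz).1
  have len : ∀ (x : B × ℝ) (r : List (W × Bool)), (X.arcs x r).length = r.length := fun x r => by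
    induction r generalizing x with
    | nil => rfl
    | cons l r ih => simp [arcs, ih]
  set Z := ((p' ++ q').map Prod.fst).toFinset with hZ
  have cZ : Z.card ≤ p.length + q.length := by
    refine (List.toFinset_card_le _).trans ?_
    rw [List.length_map, List.length_append, ← len (b, u) p, ← len (b, u) q, ← ep, ← eq',
      List.length_map, List.length_map]
  have side : ∀ z, X.Rch D (K.base (S.Q.cell z).1.1, (S.Q.cell z).1.2) N (X.src z.1.1.1, z.1.1.2) :=
    fun z => by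
      have h1 : (z.1.1, S.Q.sg z) ∈ X.bd K (S.Q.cell z).1 := by
        rw [← S.bd_eq]
        exact List.mem_map.2 ⟨(z.1, S.Q.sg z), List.mem_map.2 ⟨z, (S.Q.mem _ _).2 rfl, rfl⟩, rfl⟩
      exact (aon_arc (hC _ _ (S.Q.cell z).2).1 h1).2.mono (hN _)
  have near : ∀ k κ, S.Q.Near (Z : Set _) k κ →
      X.Rch D (b, u) (p.length + q.length + N + 2 * N * k) (K.base κ.1.1, κ.1.2) := by
    intro k κ hκ
    induction hκ with
    | base k z hz =>
      obtain ⟨z', h1, h2⟩ := List.mem_map.1 (List.mem_toFinset.1 (Finset.mem_coe.1 hz))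
      have : X.Rch D (b, u) (p.length + q.length) (X.src z.1.1.1, z.1.1.2) := by
        rw [← h2]
        rcases List.mem_append.1 h1 with h1 | h1
        · exact (aon_arc hp (z := (z'.1.1, z'.2))
            (ep ▸ List.mem_map.2 ⟨z', h1, rfl⟩)).2.mono (by omega)
        · exact (aon_arc hq (z := (z'.1.1, z'.2))
            (eq' ▸ List.mem_map.2 ⟨z', h1, rfl⟩)).2.mono (by omega)
      exact (this.trans (side z).symm).mono (by omega)
    | step k c d _ hcd ih =>
      obtain ⟨α, β, -, rfl, rfl⟩ := hcd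
      exact ((ih.trans (side (α, β))).trans (side (α, !β)).symm).mono (by ring_nf; omega)
  obtain ⟨M, hM⟩ := aon_fin hC Γ hu
  have key := S.Q.hull (Z : Set _) p' q'
    (fun x hx => Finset.mem_coe.2 (List.mem_toFinset.2
      (List.mem_map.2 ⟨x, List.mem_append_left _ hx, rfl⟩)))
    (fun x hx => Finset.mem_coe.2 (List.mem_toFinset.2
      (List.mem_map.2 ⟨x, List.mem_append_right _ hx, rfl⟩))) M
    (fun φ hφ => by
      let φ' : W × ℝ → Γ := fun α => if h : α.2 ∈ D α.1 then φ ⟨α, h⟩ else 1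
      have e : φ = fun α => φ' α.1 := funext fun α => by simp only [φ', dif_pos α.2]
      rw [e, aon_lift, aon_lift, ep, eq', ← aon_val, ← aon_val]
      refine hM φ' fun κ hκ => ?_
      have := hφ κ hκ
      rwa [e, aon_lift, S.bd_eq, bd, ← aon_val] at this) (fun α => Φ α.1)
    (fun κ hκ => by
      obtain ⟨w, h1, h2, h3⟩ := near n κ (S.Q.near_of_K S.wt Z hκ (fun _ _ => trivial) n (by
        refine le_trans ?_ hn
        have : (Z.card : ℝ) ≤ ((p.length + q.length : ℕ) : ℝ) := by exact_mod_cast cZ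
        exact mul_le_mul (le_abs_self _) (by linarith) (by positivity) (abs_nonneg _)))
      have hl := hN κ.1.1
      have h4 := tr (K.word κ.1.1) w (by omega) h2 (by rw [h3]; exact (hC _ _ κ.2).1)
      have h5 : (X.go (b, a) w).1 = K.base κ.1.1 := by rw [go_fst b a u, h3]
      have h6 := k2 w ⟨by omega, aon_flat h2⟩ κ.1.1 h5.symm (by
        have := congrArg Prod.snd h3
        rw [go_snd] at this
        rw [this]
        exact κ.2)
      have h7 := hΨ (κ.1.1, X.hol w a) h6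
      rw [aon_lift, S.bd_eq, bd, ← aon_val, ← h3, h4, ← h7]
      exact congrArg (fun y => X.val Ψ y _) (Prod.ext h5 (go_snd _ _)))
  rw [aon_lift, aon_lift, ep, eq', ← aon_val, ← aon_val] at key
  exact (tr p [] (by simp; omega) trivial hp).symm.trans
    (key.trans (tr q [] (by simp; omega) trivial hq))

/-- CLOSED; `hU` is the universal property of the homotopy relation at the limit level -/
theorem aon_closed (hF : Side F) (hD : ∀ w, FC2 F (D w) (D' w)) (hE : ∀ c, FC2 F (E c) (E' c))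
    (hC : X.CV D K E) (S : Surf X D K E)
    (hU : ∀ x p q, X.Def D' x p → X.Def D' x q → X.go x p = X.go x q →
      (∀ (Γ : Type u) [Group Γ] (Ψ : W × ℝ → Γ), (∀ κ : C × ℝ, κ.2 ∈ E' κ.1 → X.Kills K Ψ κ) →
        X.val Ψ x p = X.val Ψ x q) → X.Hd D' K E' x p q)
    {b a p q} (h : ∃ᶠ x in F a, X.Hd D K E (b, x) p q) : X.Hd D' K E' (b, a) p q := by
  obtain ⟨u, hu, k1, k2, k3⟩ := (h.and_eventually ((aon_near hF hD b a p).and
    ((aon_near hF hD b a q).and (aon_go (X := X) hF b a p q)))).exists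
  exact hU _ _ _ (k1 hu.1) (k2 ((cong_hd hC).dfr hu)) (k3 ((cong_hd hC).go_eq hu))
    fun Γ _ Ψ hΨ => aon_closed_val hF hE hC S h Ψ hΨ

end Sys
end Pool.Agent.Work.MP_3d425c_gt.Nv
end

-- merged part: Pool.Agent.Work.MP_3d425c_gt.Nv.Hull2
section
/-!
The same lemmas for a family of boundary words `bd` with the weak two-cell property.
-/

namespace Pool.Agent.Work.MP_3d425c_gt.Nv

open Set Relation

theorem lift_mk {A Γ : Type*} [Group Γ] (φ : A → Γ) (w : List (A × Bool)) :
    FreeGroup.lift φ (FreeGroup.mk w) = ev φ w := by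
  rw [FreeGroup.lift_mk, ev]
  congr 1
  refine List.map_congr_left fun x _ => ?_
  obtain ⟨a, b⟩ := x
  cases b <;> simp [lt1]

section
variable {A C : Type*} (bd : C → List (A × Bool))

/-- the arc `a` occurs in the boundary word of `c` -/
def Occ (a : A) (c : C) : Prop := ∃ s, (a, s) ∈ bd c

/-- the arc `a` occurs exactly once in the boundary word of `c` -/
def Once (a : A) (c : C) : Prop :=
  ∃ l1 s l2, bd c = l1 ++ (a, s) :: l2 ∧ (∀ x ∈ l1, x.1 ≠ a) ∧ ∀ x ∈ l2, x.1 ≠ a

/-- an arc in two different cells occurs once in each and in no third cell -/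
def Two : Prop := ∀ a c d, c ≠ d → Occ bd a c → Occ bd a d →
  Once bd a c ∧ ∀ e, Occ bd a e → e = c ∨ e = d

/-- two cells share an arc outside `Z` -/
def Ad (Z : Set A) (c d : C) : Prop := ∃ a, a ∉ Z ∧ Occ bd a c ∧ Occ bd a d

/-- the union of the finite components -/
def Kf (Z : Set A) : Set C := {c | {d | ReflTransGen (Ad bd Z) c d}.Finite}

/-- isoperimetric inequality -/
def Iso (Y : ℕ) : Prop := ∀ (T : Finset C) (Z : Finset A),
  (∀ c ∈ T, ∀ d, Ad bd (Z : Set A) c d → d ∈ T) → T.card ≤ Y * Z.card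

/-- cells within `n` dual steps of a cell that contains an arc of `Z` -/
inductive Nr (Z : Set A) : ℕ → C → Prop
  | base (n : ℕ) (a : A) (c : C) : a ∈ Z → Occ bd a c → Nr Z n c
  | step (n : ℕ) (c d : C) : Nr Z n c → Ad bd Z c d → Nr Z (n + 1) d

variable {bd}

theorem once_of_count [DecidableEq A] {a : A} {c : C}
    (h : ((bd c).map Prod.fst).count a = 1) : Once bd a c := by
  have hm : a ∈ (bd c).map Prod.fst := List.count_pos_iff.1 (by omega)
  obtain ⟨⟨a', s⟩, hx, rfl⟩ := List.mem_map.1 hm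
  obtain ⟨l1, l2, hl⟩ := List.append_of_mem hx
  rw [hl] at h
  simp only [List.map_append, List.map_cons, List.count_append, List.count_cons_self] at h
  refine ⟨l1, s, l2, hl, fun x hx e => ?_, fun x hx e => ?_⟩
  · have : 0 < (l1.map Prod.fst).count a' := List.count_pos_iff.2 (List.mem_map.2 ⟨x, hx, e⟩)
    omega
  · have : 0 < (l2.map Prod.fst).count a' := List.count_pos_iff.2 (List.mem_map.2 ⟨x, hx, e⟩)
    omega

theorem once_of_nodup {a : A} {c : C} (h : ((bd c).map Prod.fst).Nodup) (ha : Occ bd a c) :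
    Once bd a c := by
  classical
  obtain ⟨s, hs⟩ := ha
  exact once_of_count (List.count_eq_one_of_mem h (List.mem_map.2 ⟨_, hs, rfl⟩))

theorem Ad.symm {Z : Set A} {c d : C} (h : Ad bd Z c d) : Ad bd Z d c :=
  let ⟨a, ha, h1, h2⟩ := h
  ⟨a, ha, h2, h1⟩

theorem Kf_of_reach {Z : Set A} {c d : C} (hc : c ∈ Kf bd Z) (h : ReflTransGen (Ad bd Z) c d) :
    d ∈ Kf bd Z :=
  Set.Finite.subset hc fun _ he => h.trans he

theorem exit_cell {Z : Set A} (F : Finset C) {c0 : C} (h0 : c0 ∈ F) (hK : c0 ∉ Kf bd Z) :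
    ∃ c ∈ F, ∃ d, d ∉ F ∧ Ad bd Z c d := by
  by_contra hn
  push Not at hn
  apply hK
  refine Set.Finite.subset F.finite_toSet fun d hd => ?_
  have hd' : ReflTransGen (Ad bd Z) c0 d := hd
  clear hd
  induction hd' with
  | refl => exact h0
  | tail _ hs ih =>
    by_contra hF
    exact hn _ ih _ hF hs

theorem Once.solve {Γ : Type*} [Group Γ] (φ : A → Γ) {a : A} {c : C} (h : Once bd a c) :
    ∃ ψ : A → Γ, (∀ a', a' ≠ a → ψ a' = φ a') ∧ ev ψ (bd c) = 1 := by
  classical
  obtain ⟨l1, s, l2, hl, h1, h2⟩ := h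
  set g : Γ := (ev φ l1)⁻¹ * (ev φ l2)⁻¹ with hg
  refine ⟨Function.update φ a (if s = true then g else g⁻¹),
    fun a' h => Function.update_of_ne h _ _, ?_⟩
  have e : ∀ l : List (A × Bool), (∀ z ∈ l, z.1 ≠ a) →
      ev (Function.update φ a (if s = true then g else g⁻¹)) l = ev φ l := fun l h =>
    ev_congr fun x hx => Function.update_of_ne (h x hx) _ _
  rw [hl, ev_append, ev_cons, e l1 h1, e l2 h2]
  have : lt1 (Function.update φ a (if s = true then g else g⁻¹)) (a, s) = g := by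
    cases s <;> simp [lt1]
  rw [this, hg]; group

/-- EXT -/
theorem ext2 (two : Two bd) {Γ : Type*} [Group Γ] (Z : Set A) (φ0 : A → Γ)
    (h0 : ∀ c ∈ Kf bd Z, ev φ0 (bd c) = 1) (F : Finset C) :
    ∃ φ : A → Γ, (∀ a, (a ∈ Z ∨ ∃ c ∈ Kf bd Z, Occ bd a c) → φ a = φ0 a) ∧
      ∀ c, (c ∈ Kf bd Z ∨ c ∈ F) → ev φ (bd c) = 1 := by
  classical
  have main : ∀ n, ∀ F : Finset C, F.card = n → (∀ c ∈ F, c ∉ Kf bd Z) →
      ∃ φ : A → Γ, (∀ a, (a ∈ Z ∨ ∃ c ∈ Kf bd Z, Occ bd a c) → φ a = φ0 a) ∧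
        ∀ c, (c ∈ Kf bd Z ∨ c ∈ F) → ev φ (bd c) = 1 := by
    intro n
    induction n with
    | zero =>
      intro F hF _
      rw [Finset.card_eq_zero] at hF
      subst hF
      exact ⟨φ0, fun _ _ => rfl, fun c hc => h0 c (by simpa using hc)⟩
    | succ n ih =>
      intro F hF hd
      obtain ⟨c0, hc0⟩ : F.Nonempty := Finset.card_pos.1 (by omega)
      obtain ⟨c, hc, d, hdF, hadj⟩ := exit_cell F hc0 (hd c0 hc0)
      have hdK : d ∉ Kf bd Z := fun h => hd c hc (Kf_of_reach h (ReflTransGen.single hadj.symm))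
      obtain ⟨a, ha, h1, h2⟩ := hadj
      obtain ⟨φ, hφ1, hφ2⟩ := ih (F.erase c) (by rw [Finset.card_erase_of_mem hc]; omega)
        fun e he => hd e (Finset.mem_of_mem_erase he)
      obtain ⟨hon, side⟩ := two a c d (by rintro rfl; exact hdF hc) h1 h2
      obtain ⟨ψ, hψ1, hψ2⟩ := hon.solve φ
      refine ⟨ψ, fun a' h => ?_, fun e he => ?_⟩
      · rw [hψ1 a' ?_, hφ1 a' h]
        rintro rfl
        rcases h with h | ⟨e, h, he⟩
        · exact ha h
        · rcases side e he with rfl | rfl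
          · exact hd _ hc h
          · exact hdK h
      · by_cases hec : e = c
        · rw [hec]; exact hψ2
        · rw [← hφ2 e (he.imp id fun h => Finset.mem_erase.2 ⟨hec, h⟩)]
          refine ev_congr fun x hx => hψ1 _ ?_
          intro hxa
          rcases side e ⟨x.2, hxa ▸ hx⟩ with h' | h'
          · exact hec h'
          · subst h'
            rcases he with he | he
            · exact hdK he
            · exact hdF he
  obtain ⟨φ, h1, h2⟩ := main _ (F.filter fun c => c ∉ Kf bd Z) rfl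
    fun c hc => (Finset.mem_filter.1 hc).2
  refine ⟨φ, h1, fun c hc => h2 c ?_⟩
  by_cases h : c ∈ Kf bd Z
  · exact Or.inl h
  · exact Or.inr (Finset.mem_filter.2 ⟨hc.resolve_left h, h⟩)

/-- HULL -/
theorem hull2 (two : Two bd) {Γ : Type*} [Group Γ] (Z : Set A) (w w' : List (A × Bool))
    (hw : ∀ x ∈ w, x.1 ∈ Z) (hw' : ∀ x ∈ w', x.1 ∈ Z) (F : Finset C)
    (hF : ∀ φ : A → Γ, (∀ c ∈ F, ev φ (bd c) = 1) → ev φ w = ev φ w')
    (φ0 : A → Γ) (h0 : ∀ c ∈ Kf bd Z, ev φ0 (bd c) = 1) : ev φ0 w = ev φ0 w' := by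
  obtain ⟨φ, h1, h2⟩ := ext2 two Z φ0 h0 F
  rw [← ev_congr fun x hx => h1 x.1 (Or.inl (hw x hx)),
    ← ev_congr fun x hx => h1 x.1 (Or.inl (hw' x hx))]
  exact hF φ fun c hc => h2 c (Or.inr hc)

theorem Nr.succ {Z : Set A} {n : ℕ} {c : C} (h : Nr bd Z n c) : Nr bd Z (n + 1) c := by
  induction h with
  | base n a c ha hc => exact Nr.base _ a c ha hc
  | step n c d _ h ih => exact Nr.step _ c d ih h

theorem Nr.mono {Z : Set A} {n m : ℕ} {c : C} (h : Nr bd Z n c) (hnm : n ≤ m) :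
    Nr bd Z m c := by
  induction hnm with
  | refl => exact h
  | step _ ih => exact ih.succ

/-- SIZE -/
theorem nr_of_Kf {Y : ℕ} (iso : Iso bd Y) (Z : Finset A) {c : C} (hc : c ∈ Kf bd (Z : Set A)) :
    Nr bd (Z : Set A) (Y * Z.card) c := by
  classical
  have hc' : {d | ReflTransGen (Ad bd (Z : Set A)) c d}.Finite := hc
  set T : Finset C := hc'.toFinset with hT
  have memT : ∀ d, d ∈ T ↔ ReflTransGen (Ad bd (Z : Set A)) c d := fun d => hc'.mem_toFinset
  have hcl : ∀ d ∈ T, ∀ e, Ad bd (Z : Set A) d e → e ∈ T := fun d hd e h =>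
    (memT e).2 (((memT d).1 hd).tail h)
  have hTn := iso T Z hcl
  have hcT : c ∈ T := (memT c).2 ReflTransGen.refl
  obtain ⟨a0, hz1, c0, hz2, hz3⟩ : ∃ a ∈ Z, ∃ d ∈ T, Occ bd a d := by
    by_contra hn
    push Not at hn
    have h0 := iso T ∅ fun d hd e ⟨a, _, h1, h2⟩ =>
      hcl d hd e ⟨a, fun ha => hn a ha d hd h1, h1, h2⟩
    have := Finset.card_pos.2 ⟨c, hcT⟩
    simp only [Finset.card_empty, mul_zero] at h0
    omega
  have grow : ∀ k : ℕ, Nr bd (Z : Set A) k c ∨
      k < (T.filter fun d => Nr bd (Z : Set A) k d).card := by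
    intro k
    induction k with
    | zero =>
      exact Or.inr (Finset.card_pos.2 ⟨_, Finset.mem_filter.2 ⟨hz2, Nr.base 0 a0 c0 hz1 hz3⟩⟩)
    | succ k ih =>
      rcases ih with ih | ih
      · exact Or.inl ih.succ
      by_cases hall : ∀ d ∈ T, Nr bd (Z : Set A) (k + 1) d → Nr bd (Z : Set A) k d
      · left
        have back : ∀ d, ReflTransGen (Ad bd (Z : Set A)) c d → Nr bd (Z : Set A) k d →
            Nr bd (Z : Set A) k c := by
          intro d hd
          induction hd with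
          | refl => exact id
          | tail h1 h2 ih2 =>
            intro h
            exact ih2 (hall _ ((memT _).2 h1) (Nr.step _ _ _ h h2.symm))
        exact (back _ ((memT _).1 hz2) (Nr.base k a0 c0 hz1 hz3)).succ
      · right
        push Not at hall
        obtain ⟨d, hd, h1, h2⟩ := hall
        refine lt_of_le_of_lt (Nat.succ_le_of_lt ih) (Finset.card_lt_card ?_)
        rw [Finset.ssubset_iff_of_subset]
        · exact ⟨d, Finset.mem_filter.2 ⟨hd, h1⟩, fun h => h2 (Finset.mem_filter.1 h).2⟩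
        · intro e he
          exact Finset.mem_filter.2 ⟨(Finset.mem_filter.1 he).1, (Finset.mem_filter.1 he).2.succ⟩
  rcases grow (Y * Z.card) with h | h
  · exact h
  · exact absurd (lt_of_lt_of_le h ((Finset.card_filter_le _ _).trans hTn)) (lt_irrefl _)

end

namespace Sq
variable {A C : Type*} (X : Sq A C)

theorem occ_iff {a : A} {c : C} : Occ X.bd a c ↔ ∃ b, X.cell (a, b) = c := by
  constructor
  · rintro ⟨s, hs⟩
    exact X.mem_bd hs
  · rintro ⟨b, hb⟩
    exact ⟨X.sg (a, b), List.mem_map.2 ⟨(a, b), (X.mem c _).2 hb, rfl⟩⟩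

theorem two : Two X.bd := by
  intro a c d hcd h1 h2
  obtain ⟨b, h1⟩ := X.occ_iff.1 h1
  obtain ⟨b', h2⟩ := X.occ_iff.1 h2
  have hb : b' = !b := by
    by_contra h
    have : b' = b := by cases b <;> cases b' <;> simp_all
    exact hcd (h1.symm.trans (this ▸ h2))
  subst hb
  constructor
  · obtain ⟨l1, l2, hl⟩ := List.append_of_mem ((X.mem c (a, b)).2 h1)
    have hnd := X.nodup c
    rw [hl] at hnd
    have hne : ∀ z, z ∈ l1 ∨ z ∈ l2 → z.1 ≠ a := by
      rintro ⟨a', b'⟩ hz rfl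
      have hm : (a', b') ∈ X.L c := by
        rw [hl]; rcases hz with hz | hz
        · exact List.mem_append_left _ hz
        · exact List.mem_append_right _ (List.mem_cons_of_mem _ hz)
      by_cases hb : b' = b
      · subst hb
        rw [List.nodup_append] at hnd
        rcases hz with hz | hz
        · exact hnd.2.2 _ hz _ List.mem_cons_self rfl
        · exact (List.nodup_cons.1 hnd.2.1).1 hz
      · have : b' = !b := by cases b <;> cases b' <;> simp_all
        subst this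
        exact hcd (((X.mem c _).1 hm).symm.trans h2)
    refine ⟨l1.map fun z => (z.1, X.sg z), X.sg (a, b), l2.map fun z => (z.1, X.sg z), ?_, ?_, ?_⟩
    · rw [bd, hl, List.map_append, List.map_cons]
    · intro x hx
      obtain ⟨z, hz, rfl⟩ := List.mem_map.1 hx
      exact hne z (Or.inl hz)
    · intro x hx
      obtain ⟨z, hz, rfl⟩ := List.mem_map.1 hx
      exact hne z (Or.inr hz)
  · intro e he
    obtain ⟨b', he⟩ := X.occ_iff.1 he
    by_cases hb : b' = b
    · exact Or.inl (he.symm.trans (hb ▸ h1))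
    · have : b' = !b := by cases b <;> cases b' <;> simp_all
      exact Or.inr (he.symm.trans (this ▸ h2))

theorem iso {y : A × Bool → ℝ} {Y : ℕ} (hy : X.Wt univ y Y) : Iso X.bd (2 * Y) := by
  classical
  intro T Z hT
  set B : Finset (A × Bool) := (Z ×ˢ (Finset.univ : Finset Bool)).filter fun z => X.cell z ∈ T
    with hB
  have h1 := X.card_le hy (Z : Set A) T (fun _ _ => mem_univ _)
    (fun c hc d ⟨a, b, ha, h1, h2⟩ => hT c hc d ⟨a, ha, X.occ_iff.2 ⟨b, h1⟩, X.occ_iff.2 ⟨_, h2⟩⟩)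
    B fun z => by simp [hB]
  have h2 : B.card ≤ (Z ×ˢ (Finset.univ : Finset Bool)).card := Finset.card_filter_le _ _
  rw [Finset.card_product] at h2
  simp only [Finset.card_univ, Fintype.card_bool] at h2
  have h3 : T.card ≤ Y * B.card := by exact_mod_cast h1
  calc T.card ≤ Y * B.card := h3
    _ ≤ Y * (Z.card * 2) := Nat.mul_le_mul_left _ h2
    _ = 2 * Y * Z.card := by ring

end Sq

end Pool.Agent.Work.MP_3d425c_gt.Nv
end
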